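import Pool.Agent.Lib.MP_aeedc9_co.Rows

/-!
# Counting the pairs at distance at most two
-/

set_option autoImplicit false
set_option linter.unusedSectionVars false

namespace Pool.Agent.MP_aeedc9_co

open Finset
open scoped Classical

variable {V : Type*} [Fintype V] {G : SimpleGraph V} {m : ℕ} {x : V}

/-- The conditions on the rows. -/
structure Cls (G : SimpleGraph V) (x : V) (m : ℕ) : Prop extends Cfg G x m where
  one : ∀ i j, G.Adj x i → G.Adj x j → i ≠ j → ∀ p ∈ row G x i, dg G x p j ≤ 1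
  lnk : ∀ i j, G.Adj x i → G.Adj x j → i ≠ j → ell G x i j = 0 →
    2 * m ≤ 2 * nr G x i j + rho G x i + rho G x j

lemma pair_all (h : Cls G x m) {i j : V} (hi : G.Adj x i) (hj : G.Adj x j) (hij : i ≠ j) :
    2 * m * ell G x i j + 2 * m ≤
      2 * nr G x i j + rho G x i + rho G x j + 2 * ell G x i j := by
  by_cases h0 : ell G x i j = 0
  · have := h.lnk i j hi hj hij h0
    rw [h0]
    omega
  · exact pair_rows h.toCfg hi hj (h.one i j hi hj hij) (h.one j i hj hi hij.symm) (by omega)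

/-- The number of ordered pairs of different non-adjacent vertices in one row. -/
noncomputable def Rho (G : SimpleGraph V) (x : V) : ℕ := ∑ i ∈ nb G x, rho G x i

/-- The number of ordered near pairs in different rows. -/
noncomputable def Nr (G : SimpleGraph V) (x : V) : ℕ :=
  ∑ i ∈ nb G x, ∑ j ∈ (nb G x).erase i, nr G x i j

lemma card_er (h : Cfg G x m) {i : V} (hi : G.Adj x i) : ((nb G x).erase i).card = m := by
  rw [card_erase_of_mem (mem_nb.2 hi), h.reg]
  omega

lemma sum_pairs (h : Cls G x m) :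
    2 * m * (Rho G x + (m + 1) * m) + 2 * m * ((m + 1) * m) ≤
      2 * Nr G x + 2 * (m * Rho G x) + 2 * (Rho G x + (m + 1) * m) := by
  have hE : ∑ i ∈ nb G x, ∑ j ∈ (nb G x).erase i, ell G x i j = Rho G x + (m + 1) * m := by
    rw [sum_congr rfl fun i hi => sum_ell h.toCfg (mem_nb.1 hi), sum_add_distrib, sum_const,
      h.reg, smul_eq_mul]
    rfl
  have hc : ∑ i ∈ nb G x, ∑ j ∈ (nb G x).erase i, 2 * m = 2 * m * ((m + 1) * m) := by
    have : ∀ i ∈ nb G x, ∑ j ∈ (nb G x).erase i, 2 * m = m * (2 * m) := fun i hi => by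
      rw [sum_const, card_er h.toCfg (mem_nb.1 hi), smul_eq_mul]
    rw [sum_congr rfl this, sum_const, h.reg, smul_eq_mul]
    ring
  have hr1 : ∑ i ∈ nb G x, ∑ j ∈ (nb G x).erase i, rho G x i = m * Rho G x := by
    have : ∀ i ∈ nb G x, ∑ j ∈ (nb G x).erase i, rho G x i = m * rho G x i := fun i hi => by
      rw [sum_const, card_er h.toCfg (mem_nb.1 hi), smul_eq_mul]
    rw [sum_congr rfl this, ← mul_sum]
    rfl
  have hr2 : ∑ i ∈ nb G x, ∑ j ∈ (nb G x).erase i, rho G x j = m * Rho G x := by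
    rw [← hr1]
    have e : ∀ f : V → V → ℕ, ∑ i ∈ nb G x, ∑ j ∈ (nb G x).erase i, f i j =
        ∑ i ∈ nb G x, ∑ j ∈ nb G x, if j ≠ i then f i j else 0 := by
      intro f
      refine sum_congr rfl fun i _ => ?_
      rw [← sum_filter]
      refine sum_congr ?_ fun _ _ => rfl
      ext j
      rw [mem_erase, mem_filter, and_comm]
    rw [e, e, sum_comm]
    refine sum_congr rfl fun i _ => sum_congr rfl fun j _ => ?_
    exact if_congr ne_comm rfl rfl
  have key := sum_le_sum fun i (hi : i ∈ nb G x) => sum_le_sum fun j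
    (hj : j ∈ (nb G x).erase i) => pair_all h (mem_nb.1 hi) (mem_nb.1 (mem_erase.1 hj).2)
      (mem_erase.1 hj).1.symm
  simp only [sum_add_distrib] at key
  simp only [← mul_sum] at key
  rw [hE, hr1, hr2] at key
  have hc' : ∑ i ∈ nb G x, ∑ j ∈ (nb G x).erase i, 2 * m = 2 * m * ((m + 1) * m) := hc
  simp only [mul_sum] at key hc'
  unfold Nr
  simp only [mul_sum] at key ⊢
  omega

lemma near_of_row {i p q : V} (hp : p ∈ row G x i) (hq : q ∈ row G x i) : G.dist p q ≤ 2 :=
  dist_le_two (mem_row.1 hp).2.symm (mem_row.1 hq).2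

lemma ball_sum (v : V) : (ball G v).card = ∑ w, if G.dist v w ≤ 2 then 1 else 0 := by
  unfold ball
  rw [card_filter]

lemma ball_x (h : Cfg G x m) : (ball G x).card = (m + 1) ^ 2 + 1 := by
  unfold ball
  rw [filter_true_of_mem fun v _ => h.cen v, card_univ, h.card]

lemma ball_i (h : Cls G x m) {i : V} (hi : G.Adj x i) :
    2 * m + 2 + ∑ j ∈ (nb G x).erase i, ell G x i j ≤ (ball G i).card := by
  rw [ball_sum, sum_split h.toCfg]
  have h1 : (if G.dist i x ≤ 2 then 1 else 0) = 1 := by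
    rw [if_pos]
    rw [SimpleGraph.dist_comm]
    exact h.cen i
  have h2 : ∑ j ∈ nb G x, (if G.dist i j ≤ 2 then 1 else 0) = m + 1 := by
    rw [← h.reg x, card_eq_sum_ones]
    refine sum_congr rfl fun j hj => if_pos ?_
    exact dist_le_two hi.symm (mem_nb.1 hj)
  rw [h1, h2, ← add_sum_erase _ _ (mem_nb.2 hi)]
  have h3 : ∑ v ∈ row G x i, (if G.dist i v ≤ 2 then 1 else 0) = m := by
    rw [← card_row h.toCfg hi, card_eq_sum_ones]
    refine sum_congr rfl fun v hv => if_pos ?_
    rw [SimpleGraph.dist_eq_one_iff_adj.2 (mem_row.1 hv).2]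
    omega
  rw [h3]
  have h4 : ∑ j ∈ (nb G x).erase i, ell G x i j ≤
      ∑ j ∈ (nb G x).erase i, ∑ v ∈ row G x j, if G.dist i v ≤ 2 then 1 else 0 := by
    refine sum_le_sum fun j hj => ?_
    rw [ell_comm]
    unfold ell
    refine sum_le_sum fun v hv => ?_
    have hj' := mem_nb.1 (mem_erase.1 hj).2
    have h5 := h.one j i hj' hi (mem_erase.1 hj).1 v hv
    split_ifs with h6
    · exact h5
    · have : dg G x v i = 0 := by
        unfold dg
        refine sum_eq_zero fun w hw => if_neg fun h7 => h6 ?_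
        exact dist_le_two (mem_row.1 hw).2 h7.symm
      omega
  omega

lemma ball_p (h : Cls G x m) {i p : V} (hi : G.Adj x i) (hp : p ∈ row G x i) :
    m + 3 + nn G x p i + ∑ j ∈ (nb G x).erase i, ∑ q ∈ row G x j,
      (if G.dist p q ≤ 2 then 1 else 0) ≤ (ball G p).card := by
  rw [ball_sum, sum_split h.toCfg]
  have h1 : (if G.dist p x ≤ 2 then 1 else 0) = 1 := by
    rw [if_pos]
    rw [SimpleGraph.dist_comm]
    exact h.cen p
  have h2 : 2 + nn G x p i ≤ ∑ j ∈ nb G x, (if G.dist p j ≤ 2 then 1 else 0) := by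
    rw [← add_sum_erase _ _ (mem_nb.2 hi)]
    have h3 : (if G.dist p i ≤ 2 then 1 else 0) = 1 := by
      rw [if_pos]
      rw [SimpleGraph.dist_eq_one_iff_adj.2 (mem_row.1 hp).2.symm]
      omega
    rw [h3]
    have h4 : ∑ j ∈ (nb G x).erase i, dg G x p j ≤
        ∑ j ∈ (nb G x).erase i, if G.dist p j ≤ 2 then 1 else 0 := by
      refine sum_le_sum fun j hj => ?_
      have hj' := mem_nb.1 (mem_erase.1 hj).2
      have h5 := h.one i j hi hj' (mem_erase.1 hj).1.symm p hp
      split_ifs with h6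
      · exact h5
      · have : dg G x p j = 0 := by
          unfold dg
          refine sum_eq_zero fun w hw => if_neg fun h7 => h6 ?_
          exact dist_le_two h7 (mem_row.1 hw).2.symm
        omega
    rw [sum_dg_erase h.toCfg hi hp] at h4
    omega
  have h3 : ∑ j ∈ nb G x, ∑ q ∈ row G x j, (if G.dist p q ≤ 2 then 1 else 0) =
      m + ∑ j ∈ (nb G x).erase i, ∑ q ∈ row G x j, (if G.dist p q ≤ 2 then 1 else 0) := by
    rw [← add_sum_erase _ _ (mem_nb.2 hi)]
    congr 1
    rw [← card_row h.toCfg hi, card_eq_sum_ones]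
    refine sum_congr rfl fun q hq => if_pos (near_of_row hp hq)
  rw [h1, h3]
  omega

/-- **The number of pairs at distance at most two.** -/
lemma pairs_ge (h : Cls G x m) : 3 * (m + 1) ^ 3 + 1 + Rho G x ≤ pairs G := by
  unfold pairs
  rw [sum_split h.toCfg, ball_x h.toCfg]
  have h1 : 2 * (m + 1) ^ 2 + (Rho G x + (m + 1) * m) ≤ ∑ i ∈ nb G x, (ball G i).card := by
    calc _ = ∑ i ∈ nb G x, (2 * m + 2 + ∑ j ∈ (nb G x).erase i, ell G x i j) := by
          rw [sum_add_distrib, sum_const, h.reg, sum_congr rfl fun i hi =>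
            sum_ell h.toCfg (mem_nb.1 hi), sum_add_distrib, sum_const, h.reg, smul_eq_mul,
            smul_eq_mul]
          unfold Rho
          ring
      _ ≤ _ := sum_le_sum fun i hi => ball_i h (mem_nb.1 hi)
  have h2 : (m + 1) * m * (m + 3) + Rho G x + Nr G x ≤
      ∑ i ∈ nb G x, ∑ p ∈ row G x i, (ball G p).card := by
    calc _ = ∑ i ∈ nb G x, ∑ p ∈ row G x i, (m + 3 + nn G x p i +
            ∑ j ∈ (nb G x).erase i, ∑ q ∈ row G x j, (if G.dist p q ≤ 2 then 1 else 0)) := by
          have e1 : ∀ i ∈ nb G x, ∑ p ∈ row G x i, (m + 3 + nn G x p i +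
              ∑ j ∈ (nb G x).erase i, ∑ q ∈ row G x j, (if G.dist p q ≤ 2 then 1 else 0)) =
              m * (m + 3) + rho G x i + ∑ j ∈ (nb G x).erase i, nr G x i j := by
            intro i hi
            rw [sum_add_distrib, sum_add_distrib, sum_const, card_row h.toCfg (mem_nb.1 hi),
              smul_eq_mul, sum_comm]
            rfl
          rw [sum_congr rfl e1, sum_add_distrib, sum_add_distrib, sum_const, h.reg, smul_eq_mul]
          unfold Rho Nr
          ring
      _ ≤ _ := sum_le_sum fun i hi => sum_le_sum fun p hp => ball_p h (mem_nb.1 hi) hp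
  have h3 := sum_pairs h
  generalize ∑ i ∈ nb G x, (ball G i).card = A at *
  generalize ∑ i ∈ nb G x, ∑ p ∈ row G x i, (ball G p).card = B at *
  generalize Rho G x = R at *
  generalize Nr G x = N at *
  have e1 : 2 * m * (R + (m + 1) * m) + 2 * m * ((m + 1) * m) =
      2 * (m * R) + 4 * (m ^ 3 + m ^ 2) := by ring
  have e2 : (m + 1) * m = m ^ 2 + m := by ring
  have e3 : (m + 1) * m * (m + 3) = m ^ 3 + 4 * m ^ 2 + 3 * m := by ring
  have e4 : (m + 1) ^ 3 = m ^ 3 + 3 * m ^ 2 + 3 * m + 1 := by ring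
  have e5 : (m + 1) ^ 2 = m ^ 2 + 2 * m + 1 := by ring
  rw [e1, e2] at h3
  rw [e5, e2] at h1
  rw [e3] at h2
  rw [e4, e5]
  omega

end Pool.Agent.MP_aeedc9_co
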