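import Mathlib

/-!
# A counting lemma on unions of complete bipartite graphs
-/

set_option autoImplicit false

namespace Pool.Agent.MP_aeedc9_co

open Finset
open scoped Classical

/-- If a union of complete bipartite graphs `P c × Q c` (both sides nonempty) is given, then the
number of its edges outside `S × T` is at least the number of vertices it covers outside `S` and
`T`, minus the number of the graphs. -/
lemma cover {ι α β : Type*}
    (C : Finset ι) (P : ι → Finset α) (Q : ι → Finset β)
    (S : Finset α) (T : Finset β)
    (hP : ∀ c ∈ C, (P c).Nonempty) (hQ : ∀ c ∈ C, (Q c).Nonempty) :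
    (S ∪ C.biUnion P).card + (T ∪ C.biUnion Q).card ≤
      ((C.biUnion fun c => P c ×ˢ Q c) \ (S ×ˢ T)).card + C.card + S.card + T.card := by
  induction C using Finset.induction_on with
  | empty => simp
  | insert c C hc ih =>
    have ih := ih (fun c hc => hP c (mem_insert_of_mem hc))
      (fun c hc => hQ c (mem_insert_of_mem hc))
    set X := S ∪ C.biUnion P with hX
    set Y := T ∪ C.biUnion Q with hY
    have hP0 := hP c (mem_insert_self c C)
    have hQ0 := hQ c (mem_insert_self c C)
    have e1 : (S ∪ (insert c C).biUnion P).card = X.card + (P c \ X).card := by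
      have : S ∪ (insert c C).biUnion P = X ∪ (P c \ X) := by
        rw [biUnion_insert, union_sdiff_self_eq_union, hX]
        ext z
        simp only [mem_union]
        tauto
      rw [this, card_union_of_disjoint disjoint_sdiff]
    have e2 : (T ∪ (insert c C).biUnion Q).card = Y.card + (Q c \ Y).card := by
      have : T ∪ (insert c C).biUnion Q = Y ∪ (Q c \ Y) := by
        rw [biUnion_insert, union_sdiff_self_eq_union, hY]
        ext z
        simp only [mem_union]
        tauto
      rw [this, card_union_of_disjoint disjoint_sdiff]
    have e3 : ((C.biUnion fun c => P c ×ˢ Q c) \ (S ×ˢ T)).card +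
        ((P c ×ˢ Q c) \ (X ×ˢ Y)).card ≤
        (((insert c C).biUnion fun c => P c ×ˢ Q c) \ (S ×ˢ T)).card := by
      rw [← card_union_of_disjoint]
      · apply card_le_card
        intro z hz
        rw [mem_union, mem_sdiff, mem_sdiff] at hz
        rw [mem_sdiff, biUnion_insert, mem_union]
        rcases hz with ⟨h1, h2⟩ | ⟨h1, h2⟩
        · exact ⟨Or.inr h1, h2⟩
        · refine ⟨Or.inl h1, fun h3 => h2 ?_⟩
          rw [mem_product] at h3 ⊢
          exact ⟨mem_union_left _ h3.1, mem_union_left _ h3.2⟩
      · rw [disjoint_left]
        intro z hz hz2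
        rw [mem_sdiff, mem_biUnion] at hz
        rw [mem_sdiff] at hz2
        obtain ⟨⟨e, he, h1⟩, -⟩ := hz
        rw [mem_product] at h1
        apply hz2.2
        rw [mem_product]
        exact ⟨mem_union_right _ (mem_biUnion.2 ⟨e, he, h1.1⟩),
          mem_union_right _ (mem_biUnion.2 ⟨e, he, h1.2⟩)⟩
    have e4 : (P c \ X).card + (Q c \ Y).card ≤ ((P c ×ˢ Q c) \ (X ×ˢ Y)).card + 1 := by
      have h1 := card_sdiff_add_card_inter (P c ×ˢ Q c) (X ×ˢ Y)
      rw [product_inter_product, card_product, card_product] at h1
      have h2 := card_sdiff_add_card_inter (P c) X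
      have h3 := card_sdiff_add_card_inter (Q c) Y
      have h4 := hP0.card_pos
      have h5 := hQ0.card_pos
      generalize (P c \ X).card = p at *
      generalize (P c ∩ X).card = p' at *
      generalize (Q c \ Y).card = q at *
      generalize (Q c ∩ Y).card = q' at *
      generalize ((P c ×ˢ Q c) \ (X ×ˢ Y)).card = r at *
      rw [← h2, ← h3] at h1
      rw [← h2] at h4
      rw [← h3] at h5
      have h6 : r = p * q + p * q' + p' * q := by nlinarith
      rw [h6]
      rcases Nat.eq_zero_or_pos p with hp | hp
      · subst hp
        nlinarith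
      · rcases Nat.eq_zero_or_pos q with hq | hq
        · subst hq
          nlinarith
        · nlinarith
    rw [card_insert_of_notMem hc, e1, e2]
    omega

end Pool.Agent.MP_aeedc9_co
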