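import Pool.Agent.Lib.MP_aeedc9_co.Final

/-!
# Graphs in which few vertices have many vertices within distance two
-/

set_option autoImplicit false

namespace Pool.Agent.MP_aeedc9_co

open Finset
open scoped Classical

variable {V : Type*} [Fintype V] {G : SimpleGraph V} {d : ℕ}

lemma few_ineq (hc : G.Connected) (hd : ∀ v, (nb G v).card = d) (h1 : 1 ≤ d)
    (h3 : ∀ u v, G.dist u v ≤ 3) (hn : Fintype.card V = d ^ 2 + 1) (t h : ℕ)
    (hh : (univ.filter fun c => t < (ball G c).card).card ≤ h) :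
    2 * d ^ 3 ≤ pairs2 G + h * (d ^ 2 + 3) + 3 * t * (d + 1) + 6 * d ^ 2 + 2 * d := by
  have k1 : ∑ a : V, ∑ b : V, 2 * d ≤ ∑ a, ∑ b,
      (((nb G a ×ˢ nb G b).filter fun z => G.dist z.1 z.2 = 2).card +
      (ball G a ∩ ball G b).card + ((nb G a).filter fun x => G.dist x b ≤ 2).card +
      ((nb G b).filter fun y => G.dist y a ≤ 2).card) :=
    sum_le_sum fun a _ => sum_le_sum fun b _ => pair_ineq hc hd h1 h3 a b
  simp_rw [sum_add_distrib] at k1
  rw [sum_first hd, sum_second, sum_third hd] at k1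
  have k2 : ∑ a, ∑ b, ((nb G b).filter fun y => G.dist y a ≤ 2).card = d * pairs G := by
    rw [sum_comm, sum_third hd]
  rw [k2] at k1
  simp only [sum_const, card_univ, hn, smul_eq_mul] at k1
  have k3 := pairs_eq hc hd hn
  have k4 : ∑ c, (ball G c).card ^ 2 ≤ t * pairs G + h * (d ^ 2 + 1) ^ 2 := by
    have k5 : ∀ c, (ball G c).card ^ 2 ≤
        t * (ball G c).card + if t < (ball G c).card then (d ^ 2 + 1) ^ 2 else 0 := by
      intro c
      have h6 : (ball G c).card ≤ d ^ 2 + 1 := by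
        rw [← hn]
        exact card_le_univ _
      split_ifs with h7
      · have : (ball G c).card ^ 2 ≤ (d ^ 2 + 1) ^ 2 := Nat.pow_le_pow_left h6 2
        omega
      · push Not at h7
        have : (ball G c).card ^ 2 = (ball G c).card * (ball G c).card := by ring
        rw [this, add_zero]
        exact Nat.mul_le_mul_right _ h7
    calc ∑ c, (ball G c).card ^ 2
        ≤ ∑ c, (t * (ball G c).card + if t < (ball G c).card then (d ^ 2 + 1) ^ 2 else 0) :=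
          sum_le_sum fun c _ => k5 c
      _ = t * pairs G + (univ.filter fun c => t < (ball G c).card).card * (d ^ 2 + 1) ^ 2 := by
          rw [sum_add_distrib, ← mul_sum, ← sum_filter, sum_const, smul_eq_mul]
          rfl
      _ ≤ _ := Nat.add_le_add_left (Nat.mul_le_mul_right _ hh) _
  rcases Nat.lt_or_ge (pairs2 G) (2 * d ^ 3) with hN | hN
  swap
  · omega
  generalize ∑ c, (ball G c).card ^ 2 = W at *
  rw [k3] at k1 k4
  generalize pairs2 G = N at *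
  clear k2 k3 hh
  have hM : N + (d + 1) * (d ^ 2 + 1) ≤ 3 * d ^ 3 + d ^ 2 + d + 1 := by
    have : (d + 1) * (d ^ 2 + 1) = d ^ 3 + d ^ 2 + d + 1 := by ring
    omega
  set M := N + (d + 1) * (d ^ 2 + 1) with hMdef
  have a1 : (t + 2 * d) * M ≤ (t + 2 * d) * (3 * d ^ 3 + d ^ 2 + d + 1) :=
    Nat.mul_le_mul_left _ hM
  have a2 : (d ^ 2 + 1) * ((d ^ 2 + 1) * (2 * d)) ≤
      d ^ 2 * N + h * (d ^ 2 + 1) ^ 2 + (t + 2 * d) * (3 * d ^ 3 + d ^ 2 + d + 1) := by
    have : (t + 2 * d) * M = t * M + d * M + d * M := by ring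
    omega
  have k7 : ((d : ℤ) ^ 2) * (2 * d ^ 3) ≤
      ((d : ℤ) ^ 2) * (N + h * (d ^ 2 + 3) + 3 * t * (d + 1) + 6 * d ^ 2 + 2 * d) := by
    have l1 : ((d : ℤ) ^ 2 + 1) * ((d ^ 2 + 1) * (2 * d)) ≤
      d ^ 2 * N + h * (d ^ 2 + 1) ^ 2 + (t + 2 * d) * (3 * d ^ 3 + d ^ 2 + d + 1) := by
      exact_mod_cast a2
    have l3 : (1 : ℤ) ≤ d := by exact_mod_cast h1
    have l4 : (1 : ℤ) ≤ d ^ 2 := by nlinarith
    have l5 : (d : ℤ) ≤ d ^ 2 := by nlinarith
    have l6 : (d : ℤ) ^ 2 ≤ d ^ 3 := by nlinarith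
    have m1 : 0 ≤ (h : ℤ) * (d ^ 2 - 1) := mul_nonneg (by positivity) (by linarith)
    have m2 : 0 ≤ (t : ℤ) * (2 * d ^ 2 - d - 1) := mul_nonneg (by positivity) (by linarith)
    have m3 : 0 ≤ 4 * (d : ℤ) ^ 3 - 2 * d ^ 2 := by nlinarith
    have e : ((d : ℤ) ^ 2) * (N + h * (d ^ 2 + 3) + 3 * t * (d + 1) + 6 * d ^ 2 + 2 * d) -
        ((d : ℤ) ^ 2) * (2 * d ^ 3) =
        (d ^ 2 * N + h * (d ^ 2 + 1) ^ 2 + (t + 2 * d) * (3 * d ^ 3 + d ^ 2 + d + 1) -
          ((d : ℤ) ^ 2 + 1) * ((d ^ 2 + 1) * (2 * d))) +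
        (h : ℤ) * (d ^ 2 - 1) + (t : ℤ) * (2 * d ^ 2 - d - 1) + (4 * (d : ℤ) ^ 3 - 2 * d ^ 2) := by
      ring
    linarith
  have k8 : (0 : ℤ) < (d : ℤ) ^ 2 := by positivity
  have k9 := le_of_mul_le_mul_left k7 k8
  exact_mod_cast k9

end Pool.Agent.MP_aeedc9_co
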