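import Pool.Agent.Lib.MP_aeedc9_co.HubIneq

/-!
# The numerical conclusion and the status
-/

set_option autoImplicit false
set_option linter.unusedSectionVars false

namespace Pool.Agent.MP_aeedc9_co

open Finset
open scoped Classical

lemma num (q N w t M k : ℝ) (hq : 1 ≤ q) (hk1 : q ≤ k) (hk2 : k ≤ q + 1)
    (ht : t = 3 * q ^ 2 * k) (hw : w * t ≤ M) (hw0 : 0 ≤ w)
    (hM : M = N + (q ^ 2 + 1) * (q ^ 4 + 1)) (hN : 0 ≤ N)
    (hF : 6 * q ^ 4 * (q ^ 4 + 1) ^ 2 ≤ 3 * q ^ 6 * N + 24 * q ^ 4 * (q ^ 4 + 1) * w +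
      (q ^ 4 + 1) ^ 3 + 6 * q ^ 6 * (q ^ 2 + 1) * w + 3 * q ^ 2 * t * M + 6 * q ^ 4 * M) :
    5 / 3 * q ^ 6 - 20 * q ^ 5 ≤ N := by
  by_contra hcon
  push Not at hcon
  have hq0 : 0 < q := by linarith
  have q5 : 0 < q ^ 5 := by positivity
  have hq12 : 12 ≤ q := by
    by_contra h
    push Not at h
    have : q ^ 6 ≤ 12 * q ^ 5 := by nlinarith
    linarith
  have hM0 : 0 ≤ M := by rw [hM]; positivity
  have p2 : q ^ 2 = q * q := by ring
  have b1 : 1 ≤ q ^ 2 := by nlinarith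
  have b2 : q ^ 2 ≤ q ^ 4 := by nlinarith
  have b3 : q ^ 4 ≤ q ^ 5 := by nlinarith [pow_pos hq0 4]
  have hMu : M ≤ 8 / 3 * q ^ 6 := by
    have : (q ^ 2 + 1) * (q ^ 4 + 1) = q ^ 6 + q ^ 4 + q ^ 2 + 1 := by ring
    rw [hM, this]
    linarith
  have hwM : 3 * q ^ 3 * w ≤ M := by
    have e1 : 3 * q ^ 3 * w ≤ w * t := by
      rw [ht]
      have : q ^ 3 ≤ q ^ 2 * k := by nlinarith
      nlinarith
    linarith
  have c1 : 24 * q ^ 4 * (q ^ 4 + 1) * w ≤ 8 * q * (q ^ 4 + 1) * M := by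
    have : 24 * q ^ 4 * (q ^ 4 + 1) * w = 8 * q * (q ^ 4 + 1) * (3 * q ^ 3 * w) := by ring
    rw [this]
    exact mul_le_mul_of_nonneg_left hwM (by positivity)
  have c2 : 6 * q ^ 6 * (q ^ 2 + 1) * w ≤ 2 * q ^ 3 * (q ^ 2 + 1) * M := by
    have : 6 * q ^ 6 * (q ^ 2 + 1) * w = 2 * q ^ 3 * (q ^ 2 + 1) * (3 * q ^ 3 * w) := by ring
    rw [this]
    exact mul_le_mul_of_nonneg_left hwM (by positivity)
  have c3 : 3 * q ^ 2 * t * M ≤ 9 * q ^ 4 * (q + 1) * M := by
    have : 3 * q ^ 2 * t * M = 9 * q ^ 4 * k * M := by rw [ht]; ring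
    rw [this]
    have : 9 * q ^ 4 * k ≤ 9 * q ^ 4 * (q + 1) := mul_le_mul_of_nonneg_left hk2 (by positivity)
    exact mul_le_mul_of_nonneg_right this hM0
  have c4 : (8 * q * (q ^ 4 + 1) + 2 * q ^ 3 * (q ^ 2 + 1) + 9 * q ^ 4 * (q + 1) + 6 * q ^ 4) ≤
      45 / 2 * q ^ 5 := by
    have d1 : q ≤ q ^ 5 / 1000 := by
      have : (1000 : ℝ) ≤ q ^ 4 := by
        have : (144 : ℝ) ≤ q ^ 2 := by nlinarith
        nlinarith
      nlinarith
    have d2 : q ^ 3 ≤ q ^ 5 / 144 := by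
      have : (144 : ℝ) ≤ q ^ 2 := by nlinarith
      nlinarith [pow_pos hq0 3]
    have d3 : q ^ 4 ≤ q ^ 5 / 12 := by nlinarith [pow_pos hq0 4]
    nlinarith
  have c5 : (8 * q * (q ^ 4 + 1) + 2 * q ^ 3 * (q ^ 2 + 1) + 9 * q ^ 4 * (q + 1) + 6 * q ^ 4) * M ≤
      45 / 2 * q ^ 5 * (8 / 3 * q ^ 6) := by
    apply mul_le_mul c4 hMu hM0 (by positivity)
  have c6 : 5 * q ^ 12 ≤ 6 * q ^ 4 * (q ^ 4 + 1) ^ 2 - (q ^ 4 + 1) ^ 3 := by
    have : 6 * q ^ 4 * (q ^ 4 + 1) ^ 2 - (q ^ 4 + 1) ^ 3 =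
        5 * q ^ 12 + 9 * q ^ 8 + 3 * q ^ 4 - 1 := by ring
    rw [this]
    have : 0 < q ^ 8 := by positivity
    linarith
  have c7 : 5 * q ^ 12 ≤ 3 * q ^ 6 * N + 60 * q ^ 11 := by
    have e : 45 / 2 * q ^ 5 * (8 / 3 * q ^ 6) = 60 * q ^ 11 := by ring
    rw [e] at c5
    linarith
  have c8 : 3 * q ^ 6 * N < 3 * q ^ 6 * (5 / 3 * q ^ 6 - 20 * q ^ 5) :=
    mul_lt_mul_of_pos_left hcon (by positivity)
  have c9 : 3 * q ^ 6 * (5 / 3 * q ^ 6 - 20 * q ^ 5) = 5 * q ^ 12 - 60 * q ^ 11 := by ring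
  linarith

variable {V : Type*} [Fintype V] {G : SimpleGraph V} {d : ℕ}

lemma pairs_eq (hc : G.Connected) (hd : ∀ v, (nb G v).card = d)
    (hn : Fintype.card V = d ^ 2 + 1) :
    pairs G = pairs2 G + (d + 1) * (d ^ 2 + 1) := by
  unfold pairs pairs2
  simp_rw [card_ball hc hd]
  simp only [add_assoc]
  rw [sum_add_distrib, sum_const, card_univ, hn, smul_eq_mul]
  ring

/-- The lower bound with constant `5 / 3`. -/
lemma main_ineq2 (hc : G.Connected) (hd : ∀ v, (nb G v).card = d) (h1 : 1 ≤ d)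
    (h3 : ∀ u v, G.dist u v ≤ 3) (hn : Fintype.card V = d ^ 2 + 1) :
    5 / 3 * (d : ℝ) ^ 3 - 20 * ((d : ℝ) ^ 2 * Real.sqrt d) ≤ pairs2 G := by
  set q := Real.sqrt d with hq
  have hdr : (1 : ℝ) ≤ d := by exact_mod_cast h1
  have hqd : q ^ 2 = d := Real.sq_sqrt (by linarith)
  have hq1 : 1 ≤ q := by
    rw [hq]
    exact Real.one_le_sqrt.2 hdr
  set k := ⌈q⌉₊ with hk
  have hk1 : q ≤ k := Nat.le_ceil q
  have hk2 : (k : ℝ) ≤ q + 1 := (Nat.ceil_lt_add_one (by linarith)).le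
  set t := 3 * d * k with ht
  set U : Finset V := univ.filter fun c => t < (ball G c).card with hU
  have hUt : ∀ c, c ∉ U → (ball G c).card ≤ t := by
    intro c hcU
    by_contra h
    push Not at h
    exact hcU (mem_filter.2 ⟨mem_univ _, h⟩)
  have key := hub_ineq (U := U) hc hd h1 h3 hn t hUt
  have hw : U.card * t ≤ pairs G := by
    calc U.card * t = ∑ c ∈ U, t := by rw [sum_const, smul_eq_mul]
      _ ≤ ∑ c ∈ U, (ball G c).card := by
          apply sum_le_sum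
          intro c hcU
          exact (mem_filter.1 hcU).2.le
      _ ≤ ∑ c, (ball G c).card :=
          sum_le_sum_of_subset_of_nonneg (subset_univ _) (fun _ _ _ => Nat.zero_le _)
      _ = pairs G := rfl
  have hM := pairs_eq hc hd hn
  have key' : 6 * (d : ℝ) ^ 2 * (d ^ 2 + 1) ^ 2 ≤ 3 * d ^ 3 * pairs2 G +
      24 * d ^ 2 * (d ^ 2 + 1) * U.card + (d ^ 2 + 1) ^ 3 + 6 * d ^ 3 * (d + 1) * U.card +
      3 * d * t * pairs G + 6 * d ^ 2 * pairs G := by exact_mod_cast key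
  have hM' : (pairs G : ℝ) = pairs2 G + (d + 1) * (d ^ 2 + 1) := by exact_mod_cast hM
  have hw' : (U.card : ℝ) * t ≤ pairs G := by exact_mod_cast hw
  have ht' : (t : ℝ) = 3 * d * k := by rw [ht]; push_cast; ring
  have e4 : (d : ℝ) ^ 2 = q ^ 4 := by rw [← hqd]; ring
  have e6 : (d : ℝ) ^ 3 = q ^ 6 := by rw [← hqd]; ring
  have fin := num q (pairs2 G) U.card t (pairs G) k hq1 hk1 hk2 (by rw [ht', hqd]) hw'
    (by positivity) (by rw [hM', hqd, e4]) (by positivity)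
    (by
      rw [e4, e6, ← hqd] at key'
      linarith)
  calc 5 / 3 * (d : ℝ) ^ 3 - 20 * ((d : ℝ) ^ 2 * q) = 5 / 3 * q ^ 6 - 20 * q ^ 5 := by
        rw [e6, e4]; ring
    _ ≤ _ := fin

/-- The sum of all distances. -/
lemma status_eq (hc : G.Connected) (hd : ∀ v, (nb G v).card = d)
    (h3 : ∀ u v, G.dist u v ≤ 3) (hn : Fintype.card V = d ^ 2 + 1) :
    ∑ u, ∑ v, G.dist u v + pairs2 G + 2 * d ^ 3 + 2 * d = 3 * d ^ 4 + 3 * d ^ 2 := by
  have h1 : ∀ u, ∑ v, G.dist u v + (ball G u).card + (d + 1) + 1 = 3 * (d ^ 2 + 1) := by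
    intro u
    have e1 : (ball G u).card = ∑ v, if G.dist u v ≤ 2 then 1 else 0 := by
      unfold ball
      rw [card_filter]
    have e2 : d + 1 = ∑ v, if G.dist u v ≤ 1 then 1 else 0 := by
      rw [← card_filter, ← hd u]
      have : univ.filter (fun v => G.dist u v ≤ 1) = nb G u ∪ {u} := by
        ext v
        rw [mem_filter, mem_union, mem_nb, mem_singleton, ← SimpleGraph.dist_eq_one_iff_adj]
        constructor
        · rintro ⟨-, h⟩
          rcases Nat.lt_or_ge (G.dist u v) 1 with h4 | h4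
          · right
            exact (hc.dist_eq_zero_iff.1 (by omega)).symm
          · left; omega
        · rintro (h | rfl)
          · exact ⟨mem_univ _, by omega⟩
          · simp
      rw [this, card_union_of_disjoint, card_singleton]
      rw [disjoint_left]
      intro v hv hv2
      rw [mem_singleton] at hv2
      subst hv2
      exact (mem_nb.1 hv).ne rfl
    have e3 : 1 = ∑ v, if G.dist u v ≤ 0 then 1 else 0 := by
      rw [← card_filter]
      have : univ.filter (fun v => G.dist u v ≤ 0) = {u} := by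
        ext v
        rw [mem_filter, mem_singleton]
        constructor
        · rintro ⟨-, h⟩
          exact (hc.dist_eq_zero_iff.1 (by omega)).symm
        · rintro rfl
          simp
      rw [this, card_singleton]
    have e4 : ∑ v, (G.dist u v + (if G.dist u v ≤ 2 then 1 else 0) +
          (if G.dist u v ≤ 1 then 1 else 0) + (if G.dist u v ≤ 0 then 1 else 0)) =
          3 * (d ^ 2 + 1) := by
      calc ∑ v, (G.dist u v + (if G.dist u v ≤ 2 then 1 else 0) +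
            (if G.dist u v ≤ 1 then 1 else 0) + (if G.dist u v ≤ 0 then 1 else 0))
          = ∑ v : V, 3 := by
            apply sum_congr rfl
            intro v _
            have := h3 u v
            split_ifs <;> omega
        _ = 3 * (d ^ 2 + 1) := by
            rw [sum_const, card_univ, hn, smul_eq_mul]
            ring
    rw [sum_add_distrib, sum_add_distrib, sum_add_distrib, ← e1, ← e2, ← e3] at e4
    exact e4
  have h2 := sum_congr (rfl : (univ : Finset V) = univ) (fun u _ => h1 u)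
  simp_rw [sum_add_distrib] at h2
  simp only [sum_const, card_univ, hn, smul_eq_mul] at h2
  have h4 := pairs_eq hc hd hn
  unfold pairs at h4
  rw [h4] at h2
  nlinarith

end Pool.Agent.MP_aeedc9_co
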