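import Mathlib

/-!
# The graph `G_d`
-/

set_option autoImplicit false

namespace Pool.Agent.MP_aeedc9_co

/-- The vertices of `G_d`: the vertex `0`, the vertices `i` and the vertices `(i, j)`, `i ≠ j`. -/
abbrev GdV (d : ℕ) : Type := Unit ⊕ Fin d ⊕ {p : Fin d × Fin d // p.1 ≠ p.2}

/-- The edges of `G_d`: `0 ∼ i`, `i ∼ (i, j)`, `(i, j) ∼ (i, j')` for `j ≠ j'` and
`(i, k) ∼ (k, i)`. -/
def gdRel (d : ℕ) : GdV d → GdV d → Prop
  | .inl _, .inr (.inl _) => True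
  | .inr (.inl i), .inr (.inr p) => p.1.1 = i
  | .inr (.inr p), .inr (.inr q) => p.1.1 = q.1.1 ∨ (p.1.1 = q.1.2 ∧ p.1.2 = q.1.1)
  | _, _ => False

/-- The graph `G_d`. -/
def Gd (d : ℕ) : SimpleGraph (GdV d) := SimpleGraph.fromRel (gdRel d)

end Pool.Agent.MP_aeedc9_co
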