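import Pool.Agent.Lib.MP_aeedc9_co.Cover

/-!
# The inequality for regular graphs of diameter at most three on `d ^ 2 + 1` vertices
-/

set_option autoImplicit false

namespace Pool.Agent.MP_aeedc9_co

open Finset
open scoped Classical

variable {V : Type*} [Fintype V] {G : SimpleGraph V} {d : ℕ}

/-- The neighbours of `v`. -/
noncomputable def nb (G : SimpleGraph V) (v : V) : Finset V := univ.filter fun u => G.Adj v u

/-- The vertices at distance at most `2` from `v`. -/
noncomputable def ball (G : SimpleGraph V) (v : V) : Finset V := univ.filter fun u => G.dist v u ≤ 2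

@[simp] lemma mem_nb {v u : V} : u ∈ nb G v ↔ G.Adj v u := by simp [nb]

@[simp] lemma mem_ball {v u : V} : u ∈ ball G v ↔ G.dist v u ≤ 2 := by simp [ball]

lemma dist_step (hc : G.Connected) {x y : V} {k : ℕ} (h : G.dist x y ≤ k + 1) :
    x = y ∨ ∃ z, G.Adj x z ∧ G.dist z y ≤ k := by
  obtain ⟨p, hp⟩ := hc.exists_walk_length_eq_dist x y
  cases p with
  | nil => left; rfl
  | cons hxz p' =>
    right
    refine ⟨_, hxz, ?_⟩
    have h1 := SimpleGraph.dist_le p'
    rw [SimpleGraph.Walk.length_cons] at hp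
    omega

lemma exists_mid (hc : G.Connected) {x b : V} (h : G.dist x b ≤ 3) (hb : ∃ y, G.Adj b y) :
    ∃ c y, (x = c ∨ G.Adj x c) ∧ G.Adj b y ∧ (y = c ∨ G.Adj y c) := by
  rcases dist_step hc (k := 2) h with rfl | ⟨z, hz, h2⟩
  · obtain ⟨y, hy⟩ := hb
    exact ⟨x, y, Or.inl rfl, hy, Or.inr hy.symm⟩
  · rcases dist_step hc (k := 1) h2 with rfl | ⟨w, hw, h1⟩
    · exact ⟨x, x, Or.inl rfl, hz.symm, Or.inl rfl⟩
    · rcases dist_step hc (k := 0) h1 with rfl | ⟨u, hu, h0⟩
      · exact ⟨z, z, Or.inr hz, hw.symm, Or.inl rfl⟩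
      · have h3 : u = b := by
          by_contra hne
          have := hc.pos_dist_of_ne hne
          omega
        subst h3
        exact ⟨z, w, Or.inr hz, hu.symm, Or.inr hw.symm⟩

lemma dist_le_one {x c : V} (h : x = c ∨ G.Adj x c) : G.dist x c ≤ 1 := by
  rcases h with rfl | h
  · simp
  · exact (SimpleGraph.dist_eq_one_iff_adj.2 h).le

/-- The inequality for one pair of vertices. -/
lemma pair_ineq (hc : G.Connected) (hd : ∀ v, (nb G v).card = d) (h1 : 1 ≤ d)
    (h3 : ∀ u v, G.dist u v ≤ 3) (a b : V) :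
    2 * d ≤ ((nb G a ×ˢ nb G b).filter fun z => G.dist z.1 z.2 = 2).card +
      (ball G a ∩ ball G b).card + ((nb G a).filter fun x => G.dist x b ≤ 2).card +
      ((nb G b).filter fun y => G.dist y a ≤ 2).card := by
  have hne : ∀ v, ∃ y, G.Adj v y := by
    intro v
    have : (nb G v).Nonempty := by
      rw [← card_pos, hd]
      omega
    obtain ⟨y, hy⟩ := this
    exact ⟨y, mem_nb.1 hy⟩
  set P : V → Finset V := fun c => (nb G a).filter fun x => x = c ∨ G.Adj x c with hP
  set Q : V → Finset V := fun c => (nb G b).filter fun x => x = c ∨ G.Adj x c with hQ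
  set C : Finset V := univ.filter fun c => (P c).Nonempty ∧ (Q c).Nonempty with hC
  set S := (nb G a).filter fun x => G.dist x b ≤ 2 with hS
  set T := (nb G b).filter fun y => G.dist y a ≤ 2 with hT
  have key := cover C P Q S T (fun c hc => (mem_filter.1 hc).2.1) (fun c hc => (mem_filter.1 hc).2.2)
  have hX : (nb G a).card ≤ (S ∪ C.biUnion P).card := by
    apply card_le_card
    intro x hx
    apply mem_union_right
    obtain ⟨c, y, h4, h5, h6⟩ := exists_mid hc (h3 x b) (hne b)
    rw [mem_biUnion]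
    have hxP : x ∈ P c := mem_filter.2 ⟨hx, h4⟩
    have hyQ : y ∈ Q c := mem_filter.2 ⟨mem_nb.2 h5, h6⟩
    exact ⟨c, mem_filter.2 ⟨mem_univ _, ⟨x, hxP⟩, ⟨y, hyQ⟩⟩, hxP⟩
  have hY : (nb G b).card ≤ (T ∪ C.biUnion Q).card := by
    apply card_le_card
    intro x hx
    apply mem_union_right
    obtain ⟨c, y, h4, h5, h6⟩ := exists_mid hc (h3 x a) (hne a)
    rw [mem_biUnion]
    have hxP : x ∈ Q c := mem_filter.2 ⟨hx, h4⟩
    have hyQ : y ∈ P c := mem_filter.2 ⟨mem_nb.2 h5, h6⟩
    exact ⟨c, mem_filter.2 ⟨mem_univ _, ⟨y, hyQ⟩, ⟨x, hxP⟩⟩, hxP⟩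
  have hB : ((C.biUnion fun c => P c ×ˢ Q c) \ (S ×ˢ T)).card ≤
      ((nb G a ×ˢ nb G b).filter fun z => G.dist z.1 z.2 = 2).card := by
    apply card_le_card
    rintro ⟨x, y⟩ hz
    rw [mem_sdiff, mem_biUnion] at hz
    obtain ⟨⟨c, -, h4⟩, h5⟩ := hz
    rw [mem_product] at h4 h5
    obtain ⟨hx, hxc⟩ := mem_filter.1 h4.1
    obtain ⟨hy, hyc⟩ := mem_filter.1 h4.2
    dsimp only at hx hy hxc hyc h5
    refine mem_filter.2 ⟨mem_product.2 ⟨hx, hy⟩, ?_⟩
    dsimp only
    have h6 : G.dist x y ≤ 2 := by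
      have := hc.dist_triangle (u := x) (v := c) (w := y)
      have h7 := dist_le_one hxc
      have h8 := dist_le_one hyc
      rw [SimpleGraph.dist_comm] at h8
      omega
    by_contra h7
    have h8 : G.dist x y ≤ 1 := by omega
    apply h5
    have hxa : G.dist x a = 1 := SimpleGraph.dist_eq_one_iff_adj.2 (mem_nb.1 hx).symm
    have hyb : G.dist y b = 1 := SimpleGraph.dist_eq_one_iff_adj.2 (mem_nb.1 hy).symm
    refine ⟨mem_filter.2 ⟨hx, ?_⟩, mem_filter.2 ⟨hy, ?_⟩⟩
    · have := hc.dist_triangle (u := x) (v := y) (w := b)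
      omega
    · have := hc.dist_triangle (u := y) (v := x) (w := a)
      rw [SimpleGraph.dist_comm] at h8
      omega
  have hCc : C.card ≤ (ball G a ∩ ball G b).card := by
    apply card_le_card
    intro c hcC
    obtain ⟨⟨x, hx⟩, ⟨y, hy⟩⟩ := (mem_filter.1 hcC).2
    obtain ⟨hx, hxc⟩ := mem_filter.1 hx
    obtain ⟨hy, hyc⟩ := mem_filter.1 hy
    have hxa : G.dist a x = 1 := SimpleGraph.dist_eq_one_iff_adj.2 (mem_nb.1 hx)
    have hyb : G.dist b y = 1 := SimpleGraph.dist_eq_one_iff_adj.2 (mem_nb.1 hy)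
    have h7 := dist_le_one hxc
    have h8 := dist_le_one hyc
    rw [mem_inter, mem_ball, mem_ball]
    constructor
    · have := hc.dist_triangle (u := a) (v := x) (w := c)
      omega
    · have := hc.dist_triangle (u := b) (v := y) (w := c)
      omega
  have h4 := hd a
  have h5 := hd b
  omega

lemma sum_nb (hd : ∀ v, (nb G v).card = d) (f : V → ℕ) :
    ∑ a, ∑ x ∈ nb G a, f x = d * ∑ x, f x := by
  have : ∑ a, ∑ x ∈ nb G a, f x = ∑ x, ∑ a ∈ nb G x, f x := by
    apply sum_comm'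
    intro x y
    simp [SimpleGraph.adj_comm]
  rw [this, mul_sum]
  apply sum_congr rfl
  intro x _
  rw [sum_const, hd, smul_eq_mul]

/-- The number of ordered pairs at distance at most two. -/
noncomputable def pairs (G : SimpleGraph V) : ℕ := ∑ v, (ball G v).card

/-- The number of ordered pairs at distance two. -/
noncomputable def pairs2 (G : SimpleGraph V) : ℕ :=
  ∑ v, (univ.filter fun u => G.dist v u = 2).card

lemma sum_first (hd : ∀ v, (nb G v).card = d) :
    ∑ a, ∑ b, ((nb G a ×ˢ nb G b).filter fun z => G.dist z.1 z.2 = 2).card =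
      d ^ 2 * pairs2 G := by
  have h1 : ∀ a b, ((nb G a ×ˢ nb G b).filter fun z => G.dist z.1 z.2 = 2).card =
      ∑ x ∈ nb G a, ∑ y ∈ nb G b, if G.dist x y = 2 then 1 else 0 := by
    intro a b
    rw [card_filter, sum_product]
  simp_rw [h1]
  have h2 : ∀ a, ∑ b, ∑ x ∈ nb G a, ∑ y ∈ nb G b, (if G.dist x y = 2 then 1 else 0) =
      ∑ x ∈ nb G a, d * ∑ y, (if G.dist x y = 2 then 1 else 0) := by
    intro a
    rw [sum_comm]
    apply sum_congr rfl
    intro x _
    rw [sum_nb hd]
  simp_rw [h2]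
  rw [sum_nb hd]
  unfold pairs2
  simp_rw [card_filter]
  rw [← mul_sum, ← mul_assoc]
  congr 1
  ring

lemma sum_second : ∑ a, ∑ b, (ball G a ∩ ball G b).card = ∑ c, (ball G c).card ^ 2 := by
  have h1 : ∀ a b, (ball G a ∩ ball G b).card =
      ∑ c, (if G.dist c a ≤ 2 then 1 else 0) * (if G.dist c b ≤ 2 then 1 else 0) := by
    intro a b
    have : ball G a ∩ ball G b = univ.filter fun c => G.dist c a ≤ 2 ∧ G.dist c b ≤ 2 := by
      ext c
      simp [SimpleGraph.dist_comm]
    rw [this, card_filter]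
    apply sum_congr rfl
    intro c _
    split_ifs <;> simp_all
  simp_rw [h1]
  have h2 : ∀ a, ∑ b, ∑ c, (if G.dist c a ≤ 2 then 1 else 0) * (if G.dist c b ≤ 2 then 1 else 0) =
      ∑ c, (if G.dist c a ≤ 2 then 1 else 0) * (ball G c).card := by
    intro a
    rw [sum_comm]
    apply sum_congr rfl
    intro c _
    rw [← mul_sum]
    congr 1
    unfold ball
    rw [card_filter]
  simp_rw [h2]
  rw [sum_comm]
  apply sum_congr rfl
  intro c _
  rw [← sum_mul]
  have : (∑ a, if G.dist c a ≤ 2 then 1 else 0) = (ball G c).card := by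
    unfold ball
    rw [card_filter]
  rw [this]
  ring

lemma sum_third (hd : ∀ v, (nb G v).card = d) :
    ∑ a, ∑ b, ((nb G a).filter fun x => G.dist x b ≤ 2).card = d * pairs G := by
  rw [pairs, ← sum_nb hd]
  apply sum_congr rfl
  intro a _
  simp_rw [card_filter]
  rw [sum_comm]
  apply sum_congr rfl
  intro x _
  unfold ball
  rw [card_filter]

lemma card_ball (hc : G.Connected) (hd : ∀ v, (nb G v).card = d) (c : V) :
    (ball G c).card = (univ.filter fun u => G.dist c u = 2).card + d + 1 := by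
  have h1 : ball G c = ((univ.filter fun u => G.dist c u = 2) ∪ nb G c) ∪ {c} := by
    ext u
    rw [mem_ball, mem_union, mem_union, mem_filter, mem_nb, mem_singleton,
      ← SimpleGraph.dist_eq_one_iff_adj]
    constructor
    · intro h
      by_cases h2 : G.dist c u = 0
      · right
        exact (hc.dist_eq_zero_iff.1 h2).symm
      · left
        rcases Nat.lt_or_ge (G.dist c u) 2 with h3 | h3
        · right; omega
        · left; exact ⟨mem_univ _, by omega⟩
    · rintro ((⟨-, h⟩ | h) | rfl)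
      · omega
      · omega
      · simp
  rw [h1, card_union_of_disjoint, card_union_of_disjoint, hd, card_singleton]
  · rw [disjoint_left]
    intro u hu hu2
    have h2 := (mem_filter.1 hu).2
    rw [mem_nb, ← SimpleGraph.dist_eq_one_iff_adj] at hu2
    omega
  · rw [disjoint_left]
    intro u hu hu2
    rw [mem_singleton] at hu2
    subst hu2
    rw [mem_union, mem_filter, mem_nb] at hu
    rcases hu with ⟨-, h⟩ | h
    · simp at h
    · exact h.ne rfl

lemma le_card_ball (hc : G.Connected) (hd : ∀ v, (nb G v).card = d)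
    (h3 : ∀ u v, G.dist u v ≤ 3) (hn : Fintype.card V = d ^ 2 + 1) (c : V) :
    2 * d ≤ (ball G c).card := by
  set R := univ.filter fun u => G.dist c u = 2 with hR
  have h1 := card_ball hc hd c
  have h2 : (univ : Finset V) ⊆ ball G c ∪ R.biUnion (nb G) := by
    intro z _
    rw [mem_union, mem_ball, mem_biUnion]
    by_cases h : G.dist c z ≤ 2
    · exact Or.inl h
    · right
      have h4 : G.dist z c ≤ 2 + 1 := h3 z c
      rcases dist_step hc h4 with rfl | ⟨w, hw, h5⟩
      · simp at h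
      · refine ⟨w, mem_filter.2 ⟨mem_univ _, ?_⟩, mem_nb.2 hw.symm⟩
        have h6 := hc.dist_triangle (u := c) (v := w) (w := z)
        have h7 : G.dist w z = 1 := SimpleGraph.dist_eq_one_iff_adj.2 hw.symm
        rw [SimpleGraph.dist_comm] at h5
        omega
  have h4 := card_le_card h2
  rw [card_univ, hn] at h4
  have h5 : (R.biUnion (nb G)).card ≤ R.card * d := by
    apply card_biUnion_le_card_mul
    intro v _
    rw [hd]
  have h6 := card_union_le (ball G c) (R.biUnion (nb G))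
  rw [← hR] at h1
  rw [h1]
  rw [h1] at h6
  by_contra h7
  have h8 : R.card + 2 ≤ d := by omega
  nlinarith

/-- The main inequality. -/
lemma main_ineq (hc : G.Connected) (hd : ∀ v, (nb G v).card = d) (h1 : 1 ≤ d)
    (h3 : ∀ u v, G.dist u v ≤ 3) (hn : Fintype.card V = d ^ 2 + 1) :
    3 * d ^ 3 ≤ 2 * pairs2 G + 11 * d ^ 2 := by
  have k1 : ∑ a : V, ∑ b : V, 2 * d ≤ ∑ a, ∑ b,
      (((nb G a ×ˢ nb G b).filter fun z => G.dist z.1 z.2 = 2).card +
      (ball G a ∩ ball G b).card + ((nb G a).filter fun x => G.dist x b ≤ 2).card +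
      ((nb G b).filter fun y => G.dist y a ≤ 2).card) :=
    sum_le_sum fun a _ => sum_le_sum fun b _ => pair_ineq hc hd h1 h3 a b
  simp_rw [sum_add_distrib] at k1
  rw [sum_first hd, sum_second, sum_third hd] at k1
  have k2 : ∑ a, ∑ b, ((nb G b).filter fun y => G.dist y a ≤ 2).card = d * pairs G := by
    rw [sum_comm, sum_third hd]
  rw [k2] at k1
  simp only [sum_const, card_univ, hn, smul_eq_mul] at k1
  have k3 : pairs G = pairs2 G + (d + 1) * (d ^ 2 + 1) := by
    unfold pairs pairs2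
    simp_rw [card_ball hc hd]
    simp only [add_assoc]
    rw [sum_add_distrib, sum_const, card_univ, hn, smul_eq_mul]
    ring
  have k4 : ∑ c, (ball G c).card ^ 2 + 2 * d * (d ^ 2 + 1) ^ 2 ≤
      (d ^ 2 + 1 + 2 * d) * pairs G := by
    have k5 : ∀ c, (ball G c).card ^ 2 + 2 * d * (d ^ 2 + 1) ≤
        (d ^ 2 + 1 + 2 * d) * (ball G c).card := by
      intro c
      have h5 := le_card_ball hc hd h3 hn c
      have h6 : (ball G c).card ≤ d ^ 2 + 1 := by
        rw [← hn]
        exact card_le_univ _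
      nlinarith
    have k6 := sum_le_sum fun c (_ : c ∈ (univ : Finset V)) => k5 c
    rw [sum_add_distrib, sum_const, card_univ, hn, smul_eq_mul, ← mul_sum] at k6
    calc _ = ∑ c, (ball G c).card ^ 2 + (d ^ 2 + 1) * (2 * d * (d ^ 2 + 1)) := by ring
      _ ≤ _ := k6
  rw [k3] at k1 k4
  generalize ∑ c, (ball G c).card ^ 2 = W at *
  generalize pairs2 G = N at *
  clear k2 k3
  -- the final computation
  have k7 : (2 * (d : ℤ) ^ 2 + 4 * d + 1) * (3 * d ^ 3) ≤
      (2 * (d : ℤ) ^ 2 + 4 * d + 1) * (2 * N + 11 * d ^ 2) := by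
    have l1 : ((d : ℤ) ^ 2 + 1) * ((d ^ 2 + 1) * (2 * d)) ≤ d ^ 2 * N + W +
        d * (N + (d + 1) * (d ^ 2 + 1)) + d * (N + (d + 1) * (d ^ 2 + 1)) := by
      exact_mod_cast k1
    have l2 : (W : ℤ) + 2 * d * (d ^ 2 + 1) ^ 2 ≤
        (d ^ 2 + 1 + 2 * d) * (N + (d + 1) * (d ^ 2 + 1)) := by
      exact_mod_cast k4
    have l3 : (1 : ℤ) ≤ d := by exact_mod_cast h1
    have l4 : 0 ≤ 45 * (d : ℤ) ^ 3 - d ^ 2 - 2 * d - 2 := by
      have l5 : (d : ℤ) ^ 2 ≤ d ^ 3 := by nlinarith [sq_nonneg (d : ℤ)]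
      have l6 : (d : ℤ) ≤ d ^ 2 := by nlinarith
      nlinarith
    nlinarith
  have k8 : (0 : ℤ) < 2 * (d : ℤ) ^ 2 + 4 * d + 1 := by positivity
  have k9 := le_of_mul_le_mul_left k7 k8
  exact_mod_cast k9

end Pool.Agent.MP_aeedc9_co
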