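import Pool.Agent.Lib.MP_aeedc9_co.Hubs

/-!
# The global inequality with hubs
-/

set_option autoImplicit false
set_option linter.unusedSectionVars false

namespace Pool.Agent.MP_aeedc9_co

open Finset
open scoped Classical

variable {V : Type*} [Fintype V] {G : SimpleGraph V} {d : ℕ} {U : Finset V}

/-- The vertices outside `U` with a foot at `c`. -/
noncomputable def sgSet (G : SimpleGraph V) (U : Finset V) (c : V) : Finset V :=
  univ.filter fun a => a ∉ U ∧ Foot G U c a

/-- The vertices outside `U` at distance at most two from `c`. -/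
noncomputable def rbSet (G : SimpleGraph V) (U : Finset V) (c : V) : Finset V :=
  (ball G c).filter fun a => a ∉ U

/-- The vertices outside `U` that are not seen from `b`. -/
noncomputable def jSet (G : SimpleGraph V) (U : Finset V) (b : V) : Finset V :=
  univ.filter fun x => x ∉ U ∧ ¬ Sees G U x b

/-- Number of pairs at distance two outside `U`. -/
noncomputable def pairsO (G : SimpleGraph V) (U : Finset V) : ℕ :=
  ∑ x, ∑ y, if x ∉ U ∧ y ∉ U ∧ G.dist x y = 2 then 1 else 0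

/-- Number of vertices outside `U` at distance two from `c`. -/
noncomputable def rO (G : SimpleGraph V) (U : Finset V) (c : V) : ℕ :=
  ∑ y, if y ∉ U ∧ G.dist c y = 2 then 1 else 0

lemma sum_nb' (hd : ∀ v, (nb G v).card = d) (f : V → ℕ) :
    ∑ a, ∑ x ∈ nb G a, f x = d * ∑ x, f x := sum_nb hd f

lemma stepA (hc : G.Connected) (hd : ∀ v, (nb G v).card = d) (a b : V) :
    ((nbo G U a).filter fun x => Sees G U x b).card +
      ((nbo G U b).filter fun y => Sees G U y a).card ≤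
      ((nbo G U a ×ˢ nbo G U b).filter fun z => G.dist z.1 z.2 = 2).card +
      ((if a ∈ U then 2 * d else 0) + (if b ∈ U then 2 * d else 0) +
        (if a ∉ U ∧ b ∉ U then (univ.filter fun c => Foot G U c a ∧ Foot G U c b).card else 0)) +
      ((nb G a).filter fun x => G.dist x b ≤ 2).card +
      ((nb G b).filter fun y => G.dist y a ≤ 2).card := by
  have key := pair_ineq2 (U := U) hc a b
  have s1 : ((nbo G U a).filter fun x => G.dist x b ≤ 2).card ≤
      ((nb G a).filter fun x => G.dist x b ≤ 2).card :=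
    card_le_card (filter_subset_filter _ (filter_subset _ _))
  have s2 : ((nbo G U b).filter fun x => G.dist x a ≤ 2).card ≤
      ((nb G b).filter fun x => G.dist x a ≤ 2).card :=
    card_le_card (filter_subset_filter _ (filter_subset _ _))
  have t1 : ((nbo G U a).filter fun x => Sees G U x b).card ≤ d := by
    rw [← hd a]
    exact card_le_card ((filter_subset _ _).trans (filter_subset _ _))
  have t2 : ((nbo G U b).filter fun x => Sees G U x a).card ≤ d := by
    rw [← hd b]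
    exact card_le_card ((filter_subset _ _).trans (filter_subset _ _))
  by_cases ha : a ∈ U
  · rw [if_pos ha]
    omega
  · by_cases hb : b ∈ U
    · rw [if_pos hb]
      omega
    · rw [if_neg ha, if_neg hb, if_pos ⟨ha, hb⟩]
      omega

lemma sumL (hd : ∀ v, (nb G v).card = d) :
    ∑ a, ∑ b, ((nbo G U a).filter fun x => Sees G U x b).card =
      d * ∑ b, (univ.filter fun x => x ∉ U ∧ Sees G U x b).card := by
  rw [sum_comm, mul_sum]
  apply sum_congr rfl
  intro b _
  rw [card_filter, ← sum_nb hd]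
  apply sum_congr rfl
  intro a _
  unfold nbo
  rw [filter_filter, card_filter]

lemma sumB (hd : ∀ v, (nb G v).card = d) :
    ∑ a, ∑ b, ((nbo G U a ×ˢ nbo G U b).filter fun z => G.dist z.1 z.2 = 2).card =
      d ^ 2 * pairsO G U := by
  have h1 : ∀ a b, ((nbo G U a ×ˢ nbo G U b).filter fun z => G.dist z.1 z.2 = 2).card =
      ∑ x ∈ nb G a, ∑ y ∈ nb G b, if x ∉ U ∧ y ∉ U ∧ G.dist x y = 2 then 1 else 0 := by
    intro a b
    rw [card_filter, sum_product]
    unfold nbo
    rw [sum_filter]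
    apply sum_congr rfl
    intro x _
    by_cases hx : x ∉ U
    · rw [if_pos hx, sum_filter]
      apply sum_congr rfl
      intro y _
      by_cases hy : y ∉ U
      · simp [hx, hy]
      · simp [hy]
    · rw [if_neg hx]
      symm
      apply sum_eq_zero
      intro y _
      rw [if_neg]
      exact fun h => hx h.1
  simp_rw [h1]
  have h2 : ∀ a, ∑ b, ∑ x ∈ nb G a, ∑ y ∈ nb G b,
      (if x ∉ U ∧ y ∉ U ∧ G.dist x y = 2 then 1 else 0) =
      ∑ x ∈ nb G a, d * ∑ y, (if x ∉ U ∧ y ∉ U ∧ G.dist x y = 2 then 1 else 0) := by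
    intro a
    rw [sum_comm]
    apply sum_congr rfl
    intro x _
    rw [sum_nb hd]
  simp_rw [h2]
  rw [sum_nb hd, ← mul_sum, ← mul_assoc]
  unfold pairsO
  congr 1
  ring

lemma sumE1 (f : ℕ) : ∑ _a : V, ∑ b : V, (if b ∈ U then f else 0) =
    Fintype.card V * (U.card * f) := by
  rw [sum_const, card_univ, smul_eq_mul]
  congr 1
  rw [← sum_filter, sum_const, smul_eq_mul]
  congr 2
  ext x
  simp

lemma sumE2 : ∑ a, ∑ b, (if a ∉ U ∧ b ∉ U then
      (univ.filter fun c => Foot G U c a ∧ Foot G U c b).card else 0) =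
    ∑ c, (sgSet G U c).card ^ 2 := by
  have h1 : ∀ a b, (if a ∉ U ∧ b ∉ U then
      (univ.filter fun c => Foot G U c a ∧ Foot G U c b).card else 0) =
      ∑ c, (if a ∉ U ∧ Foot G U c a then 1 else 0) * (if b ∉ U ∧ Foot G U c b then 1 else 0) := by
    intro a b
    by_cases h : a ∉ U ∧ b ∉ U
    · rw [if_pos h, card_filter]
      apply sum_congr rfl
      intro c _
      by_cases h1 : Foot G U c a
      · by_cases h2 : Foot G U c b
        · simp [h.1, h.2, h1, h2]
        · simp [h2]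
      · simp [h1]
    · rw [if_neg h]
      symm
      apply sum_eq_zero
      intro c _
      by_cases ha : a ∉ U
      · have hb : ¬ (b ∉ U) := fun hb => h ⟨ha, hb⟩
        rw [if_neg (c := b ∉ U ∧ Foot G U c b) (fun h => hb h.1), mul_zero]
      · rw [if_neg (c := a ∉ U ∧ Foot G U c a) (fun h => ha h.1), zero_mul]
  simp_rw [h1]
  have h2 : ∀ a, ∑ b, ∑ c, (if a ∉ U ∧ Foot G U c a then 1 else 0) *
      (if b ∉ U ∧ Foot G U c b then 1 else 0) =
      ∑ c, (if a ∉ U ∧ Foot G U c a then 1 else 0) * (sgSet G U c).card := by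
    intro a
    rw [sum_comm]
    apply sum_congr rfl
    intro c _
    rw [← mul_sum]
    unfold sgSet
    rw [card_filter]
  simp_rw [h2]
  rw [sum_comm]
  apply sum_congr rfl
  intro c _
  rw [← sum_mul]
  have : (∑ a, if a ∉ U ∧ Foot G U c a then 1 else 0) = (sgSet G U c).card := by
    unfold sgSet
    rw [card_filter]
  rw [this]
  ring

/-- First global inequality. -/
lemma stepE (hc : G.Connected) (hd : ∀ v, (nb G v).card = d) :
    2 * d * ∑ b, (univ.filter fun x => x ∉ U ∧ Sees G U x b).card ≤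
      d ^ 2 * pairsO G U + 4 * d * Fintype.card V * U.card + ∑ c, (sgSet G U c).card ^ 2 +
      2 * d * pairs G := by
  have k1 := sum_le_sum fun a (_ : a ∈ (univ : Finset V)) =>
    sum_le_sum fun b (_ : b ∈ (univ : Finset V)) => stepA (U := U) hc hd a b
  simp_rw [sum_add_distrib] at k1
  have k2 : ∑ a, ∑ b, ((nbo G U b).filter fun y => Sees G U y a).card =
      d * ∑ b, (univ.filter fun x => x ∉ U ∧ Sees G U x b).card := by
    rw [sum_comm, sumL hd]
  have k3 : ∑ a, ∑ b, ((nb G b).filter fun y => G.dist y a ≤ 2).card = d * pairs G := by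
    rw [sum_comm, sum_third hd]
  have k4 : ∑ a : V, ∑ _b : V, (if a ∈ U then 2 * d else 0) =
      Fintype.card V * (U.card * (2 * d)) := by
    rw [sum_comm, sumE1]
  rw [sumL hd, k2, sumB hd, sumE2, sum_third hd, k3, k4, sumE1] at k1
  calc 2 * d * ∑ b, (univ.filter fun x => x ∉ U ∧ Sees G U x b).card
      = d * (∑ b, (univ.filter fun x => x ∉ U ∧ Sees G U x b).card) +
        d * ∑ b, (univ.filter fun x => x ∉ U ∧ Sees G U x b).card := by ring
    _ ≤ _ := k1
    _ = _ := by ring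

lemma stepJ (b : V) : (univ.filter fun x => x ∉ U ∧ Sees G U x b).card + (jSet G U b).card +
    U.card = Fintype.card V := by
  have h1 : (univ.filter fun x : V => x ∉ U).card + U.card = Fintype.card V := by
    have := card_compl_add_card U
    rw [← this]
    congr 2
    ext x
    simp
  rw [← h1]
  congr 1
  unfold jSet
  rw [← filter_filter, ← filter_filter]
  exact card_filter_add_card_filter_not _

lemma sg_subset (hc : G.Connected) (c : V) : sgSet G U c ⊆ rbSet G U c := by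
  intro a ha
  obtain ⟨h1, h2⟩ := (mem_filter.1 ha).2
  exact mem_filter.2 ⟨foot_ball hc h2, h1⟩

lemma rb_le (hn : Fintype.card V = d ^ 2 + 1) {c : V} (hcU : c ∈ U) :
    (rbSet G U c).card ≤ d ^ 2 := by
  have h1 : rbSet G U c ⊆ univ.erase c := by
    intro a ha
    rw [mem_erase]
    refine ⟨?_, mem_univ _⟩
    rintro rfl
    exact (mem_filter.1 ha).2 hcU
  have h2 := card_le_card h1
  rw [card_erase_of_mem (mem_univ _), card_univ, hn] at h2
  simpa using h2

/-- The relation `x` is isolated for `b` but not conversely. -/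
def Dom (G : SimpleGraph V) (U : Finset V) (b x : V) : Prop := ¬ Sees G U x b ∧ Sees G U b x

/-- The inequality for one vertex outside `U`. -/
lemma stepD (hc : G.Connected) (hd : ∀ v, (nb G v).card = d) (h1 : 1 ≤ d)
    (h3 : ∀ u v, G.dist u v ≤ 3) (hn : Fintype.card V = d ^ 2 + 1) (b : V) :
    2 * (d : ℤ) ^ 2 * (jSet G U b).card +
      ∑ c ∈ (nb G b).filter (fun c => c ∈ U), (((sgSet G U c).card : ℤ) ^ 2 -
        2 * (d : ℤ) ^ 2 * (rbSet G U c).card) ≤
      (((univ.filter fun x : V => x ∉ U).filter fun x => Dom G U b x).card : ℤ) ^ 2 := by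
  set H := (nb G b).filter (fun c => c ∈ U) with hH
  have hne : ∀ v, ∃ y, G.Adj v y := by
    intro v
    have : (nb G v).Nonempty := by
      rw [← card_pos, hd]
      omega
    obtain ⟨y, hy⟩ := this
    exact ⟨y, mem_nb.1 hy⟩
  set J1 := (univ.filter fun x : V => x ∉ U).filter fun x => Dom G U b x with hJ1
  set J2 := univ.filter (fun x : V => x ∉ U ∧ ¬ Sees G U x b ∧ ¬ Sees G U b x) with hJ2
  have hJ : (jSet G U b).card = J1.card + J2.card := by
    rw [← card_union_of_disjoint]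
    · congr 1
      ext x
      constructor
      · intro hx
        obtain ⟨-, hxU, hs⟩ := mem_filter.1 hx
        by_cases hs2 : Sees G U b x
        · exact mem_union_left _ (mem_filter.2 ⟨mem_filter.2 ⟨mem_univ _, hxU⟩, hs, hs2⟩)
        · exact mem_union_right _ (mem_filter.2 ⟨mem_univ _, hxU, hs, hs2⟩)
      · intro hx
        rcases mem_union.1 hx with hx | hx
        · obtain ⟨hx1, hs, -⟩ := mem_filter.1 hx
          exact mem_filter.2 ⟨mem_univ _, (mem_filter.1 hx1).2, hs⟩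
        · obtain ⟨-, hxU, hs, -⟩ := mem_filter.1 hx
          exact mem_filter.2 ⟨mem_univ _, hxU, hs⟩
    · rw [disjoint_left]
      intro x hx hx2
      exact (mem_filter.1 hx2).2.2.2 (mem_filter.1 hx).2.2
  have hcov : ∀ x ∈ jSet G U b, ∃ c ∈ H, x ∈ rbSet G U c := by
    intro x hx
    obtain ⟨-, hxU, hs⟩ := mem_filter.1 hx
    obtain ⟨c, hcU, hbc, hcx⟩ := exists_hub hc (h3 x b) (hne b) hs
    exact ⟨c, mem_filter.2 ⟨mem_nb.2 hbc, hcU⟩, mem_filter.2 ⟨mem_ball.2 hcx, hxU⟩⟩
  have hi : (jSet G U b).card ≤ ∑ c ∈ H, (rbSet G U c).card := by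
    refine (card_le_card ?_).trans card_biUnion_le
    intro x hx
    rw [mem_biUnion]
    exact hcov x hx
  have hii : J2.card + ∑ c ∈ H, (sgSet G U c).card ≤ ∑ c ∈ H, (rbSet G U c).card := by
    have e1 : J2.card ≤ ∑ c ∈ H, (rbSet G U c \ sgSet G U c).card := by
      refine (card_le_card ?_).trans card_biUnion_le
      intro x hx
      obtain ⟨-, hxU, hs, hs2⟩ := mem_filter.1 hx
      obtain ⟨c, hcH, hxc⟩ := hcov x (mem_filter.2 ⟨mem_univ _, hxU, hs⟩)
      rw [mem_biUnion]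
      refine ⟨c, hcH, mem_sdiff.2 ⟨hxc, fun hsg => hs2 ?_⟩⟩
      exact sees_of_foot hc (mem_filter.1 hsg).2.2 (mem_nb.1 (mem_filter.1 hcH).1)
    have e2 : ∑ c ∈ H, (rbSet G U c).card =
        ∑ c ∈ H, ((rbSet G U c \ sgSet G U c).card + (sgSet G U c).card) := by
      apply sum_congr rfl
      intro c _
      rw [card_sdiff_add_card_eq_card (sg_subset hc c)]
    rw [e2, sum_add_distrib]
    omega
  have hs : ∀ c ∈ H, (sgSet G U c).card ≤ d ^ 2 := by
    intro c hcH
    exact (card_le_card (sg_subset hc c)).trans (rb_le hn (mem_filter.1 hcH).2)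
  have hQ1 : ∑ c ∈ H, (sgSet G U c).card ^ 2 ≤ d ^ 2 * ∑ c ∈ H, (sgSet G U c).card := by
    rw [mul_sum]
    apply sum_le_sum
    intro c hcH
    rw [sq]
    exact Nat.mul_le_mul_right _ (hs c hcH)
  have hQ2 : ∑ c ∈ H, (sgSet G U c).card ^ 2 ≤
      (∑ c ∈ H, (sgSet G U c).card) * ∑ c ∈ H, (sgSet G U c).card := by
    rw [mul_sum]
    apply sum_le_sum
    intro c hcH
    rw [sq]
    exact Nat.mul_le_mul_right _ (single_le_sum (f := fun c => (sgSet G U c).card)
      (fun _ _ => Nat.zero_le _) hcH)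
  have hJD : J1.card ≤ d ^ 2 := by
    by_cases hU : U.Nonempty
    · obtain ⟨c, hcU⟩ := hU
      have h5 : J1 ⊆ univ.erase c := by
        intro a ha
        rw [mem_erase]
        refine ⟨?_, mem_univ _⟩
        rintro rfl
        exact (mem_filter.1 (mem_filter.1 ha).1).2 hcU
      have h2 := card_le_card h5
      rw [card_erase_of_mem (mem_univ _), card_univ, hn] at h2
      omega
    · rw [not_nonempty_iff_eq_empty] at hU
      have h5 : H = ∅ := by
        rw [hH, hU]
        exact filter_false_of_mem (fun c _ => notMem_empty c)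
      rw [h5, sum_empty] at hi
      omega
  rw [sum_sub_distrib, ← mul_sum, hJ]
  rw [hJ] at hi
  clear hcov hne hs hJ
  clear_value J1 J2 H
  clear hJ1 hJ2 hH
  generalize J1.card = j1 at *
  generalize J2.card = j2 at *
  have i1 : (j1 : ℤ) ≤ (d : ℤ) ^ 2 := by exact_mod_cast hJD
  have i2 : (j1 : ℤ) + j2 ≤ ∑ c ∈ H, ((rbSet G U c).card : ℤ) := by exact_mod_cast hi
  have i3 : (j2 : ℤ) + ∑ c ∈ H, ((sgSet G U c).card : ℤ) ≤
      ∑ c ∈ H, ((rbSet G U c).card : ℤ) := by exact_mod_cast hii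
  have i4 : ∑ c ∈ H, ((sgSet G U c).card : ℤ) ^ 2 ≤
      (d : ℤ) ^ 2 * ∑ c ∈ H, ((sgSet G U c).card : ℤ) := by exact_mod_cast hQ1
  have i5 : ∑ c ∈ H, ((sgSet G U c).card : ℤ) ^ 2 ≤
      (∑ c ∈ H, ((sgSet G U c).card : ℤ)) * ∑ c ∈ H, ((sgSet G U c).card : ℤ) := by
    exact_mod_cast hQ2
  have i6 : (0 : ℤ) ≤ j1 := by positivity
  have i7 : (0 : ℤ) ≤ ∑ c ∈ H, ((sgSet G U c).card : ℤ) := by positivity
  have key := scalar_ineq i6 i1 i7 i2 i3 i4 i5
  push_cast
  linarith

/-- Second global inequality. -/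
lemma stepD2 (hc : G.Connected) (hd : ∀ v, (nb G v).card = d) (h1 : 1 ≤ d)
    (h3 : ∀ u v, G.dist u v ≤ 3) (hn : Fintype.card V = d ^ 2 + 1) :
    3 * (2 * (d : ℤ) ^ 2 * ∑ b ∈ univ.filter (fun x : V => x ∉ U), ((jSet G U b).card : ℤ) +
      d * ∑ c ∈ U, (((sgSet G U c).card : ℤ) ^ 2 - 2 * (d : ℤ) ^ 2 * (rbSet G U c).card)) ≤
      ((d : ℤ) ^ 2 + 1) ^ 3 := by
  set W := univ.filter (fun x : V => x ∉ U) with hW
  set f : V → ℤ := fun c => ((sgSet G U c).card : ℤ) ^ 2 - 2 * (d : ℤ) ^ 2 * (rbSet G U c).card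
    with hf
  have hf0 : ∀ c ∈ U, f c ≤ 0 := by
    intro c hcU
    have e1 : (sgSet G U c).card ≤ (rbSet G U c).card := card_le_card (sg_subset hc c)
    have e2 := rb_le (G := G) hn hcU
    have e3 : (sgSet G U c).card ^ 2 ≤ d ^ 2 * (rbSet G U c).card := by
      rw [sq]
      exact Nat.mul_le_mul (e1.trans e2) e1
    have e4 : ((sgSet G U c).card : ℤ) ^ 2 ≤ (d : ℤ) ^ 2 * (rbSet G U c).card := by
      exact_mod_cast e3
    have e5 : (0 : ℤ) ≤ (d : ℤ) ^ 2 * (rbSet G U c).card := by positivity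
    simp only [hf]
    linarith
  have k1 := sum_le_sum fun b (_ : b ∈ W) => stepD (U := U) hc hd h1 h3 hn b
  rw [sum_add_distrib, ← mul_sum] at k1
  have k2 : ∑ b ∈ W, ∑ c ∈ (nb G b).filter (fun c => c ∈ U), f c =
      ∑ c ∈ U, ((nb G c).filter fun b => b ∈ W).card * f c := by
    have e : ∑ b ∈ W, ∑ c ∈ (nb G b).filter (fun c => c ∈ U), f c =
        ∑ c ∈ U, ∑ b ∈ (nb G c).filter (fun b => b ∈ W), f c := by
      apply sum_comm'
      intro x y
      simp only [mem_filter, mem_nb]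
      constructor
      · rintro ⟨a1, a2, a3⟩
        exact ⟨⟨a2.symm, a1⟩, a3⟩
      · rintro ⟨⟨a1, a2⟩, a3⟩
        exact ⟨a2, a1.symm, a3⟩
    rw [e]
    apply sum_congr rfl
    intro c _
    rw [sum_const, nsmul_eq_mul]
  have k3 : (d : ℤ) * ∑ c ∈ U, f c ≤ ∑ b ∈ W, ∑ c ∈ (nb G b).filter (fun c => c ∈ U), f c := by
    rw [k2, mul_sum]
    apply sum_le_sum
    intro c hcU
    have e1 : ((nb G c).filter fun b => b ∈ W).card ≤ d := by
      rw [← hd c]
      exact card_le_card (filter_subset _ _)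
    have e2 : (((nb G c).filter fun b => b ∈ W).card : ℤ) ≤ d := by exact_mod_cast e1
    exact mul_le_mul_of_nonpos_right e2 (hf0 c hcU)
  have k4 := sum_sq_le (fun b x => Dom G U b x) (fun x y h h2 => h.1 h2.2) W
  have k5 : W.card ≤ d ^ 2 + 1 := by
    rw [← hn]
    exact card_le_univ _
  have k6 : W.card ^ 3 ≤ (d ^ 2 + 1) ^ 3 := Nat.pow_le_pow_left k5 3
  have k7 : 3 * ∑ b ∈ W, ((W.filter fun x => Dom G U b x).card : ℤ) ^ 2 ≤
      ((d : ℤ) ^ 2 + 1) ^ 3 := by
    have := k4.trans k6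
    exact_mod_cast this
  have k8 : 2 * (d : ℤ) ^ 2 * ∑ b ∈ W, ((jSet G U b).card : ℤ) + d * ∑ c ∈ U, f c ≤
      ∑ b ∈ W, ((W.filter fun x => Dom G U b x).card : ℤ) ^ 2 := by
    linarith
  linarith

lemma pairs2_ge : pairsO G U + 2 * ∑ c ∈ U, rO G U c ≤ pairs2 G := by
  have e1 : ∑ c ∈ U, rO G U c = ∑ x, ∑ y, if x ∈ U ∧ y ∉ U ∧ G.dist x y = 2 then 1 else 0 := by
    rw [← sum_filter_add_sum_filter_not univ (fun x => x ∈ U)]
    have z : ∑ x ∈ univ.filter (fun x : V => ¬ x ∈ U),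
        ∑ y, (if x ∈ U ∧ y ∉ U ∧ G.dist x y = 2 then 1 else 0) = 0 := by
      apply sum_eq_zero
      intro x hx
      apply sum_eq_zero
      intro y _
      rw [if_neg]
      exact fun h => (mem_filter.1 hx).2 h.1
    rw [z, add_zero]
    have z2 : univ.filter (fun x : V => x ∈ U) = U := by ext x; simp
    rw [z2]
    apply sum_congr rfl
    intro x hx
    unfold rO
    apply sum_congr rfl
    intro y _
    simp [hx]
  have e2 : ∑ c ∈ U, rO G U c = ∑ x, ∑ y, if x ∉ U ∧ y ∈ U ∧ G.dist x y = 2 then 1 else 0 := by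
    rw [e1, sum_comm]
    apply sum_congr rfl
    intro x _
    apply sum_congr rfl
    intro y _
    have : (y ∈ U ∧ x ∉ U ∧ G.dist y x = 2) ↔ (x ∉ U ∧ y ∈ U ∧ G.dist x y = 2) := by
      rw [SimpleGraph.dist_comm]
      tauto
    simp only [this]
  have e3 : pairs2 G = ∑ x, ∑ y, if G.dist x y = 2 then 1 else 0 := by
    unfold pairs2
    simp_rw [card_filter]
  have e4 : pairsO G U + 2 * ∑ c ∈ U, rO G U c = ∑ x, ∑ y,
      ((if x ∉ U ∧ y ∉ U ∧ G.dist x y = 2 then 1 else 0) +
       (if x ∈ U ∧ y ∉ U ∧ G.dist x y = 2 then 1 else 0) +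
       (if x ∉ U ∧ y ∈ U ∧ G.dist x y = 2 then 1 else 0)) := by
    simp_rw [sum_add_distrib]
    rw [two_mul, ← e1, ← e2]
    unfold pairsO
    ring
  rw [e4, e3]
  apply sum_le_sum; intro x _
  apply sum_le_sum; intro y _
  by_cases h : G.dist x y = 2
  · by_cases hx : x ∈ U <;> by_cases hy : y ∈ U <;> simp [h, hx, hy]
  · simp [h]

lemma rb_le_rO (hc : G.Connected) (hd : ∀ v, (nb G v).card = d) (c : V) :
    (rbSet G U c).card ≤ rO G U c + (d + 1) := by
  have h1 : rbSet G U c ⊆ ((univ.filter fun y => y ∉ U ∧ G.dist c y = 2) ∪ nb G c) ∪ {c} := by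
    intro u hu
    obtain ⟨hu1, hu2⟩ := mem_filter.1 hu
    rw [mem_ball] at hu1
    rw [mem_union, mem_union, mem_filter, mem_nb, mem_singleton,
      ← SimpleGraph.dist_eq_one_iff_adj]
    by_cases h2 : G.dist c u = 0
    · right
      exact (hc.dist_eq_zero_iff.1 h2).symm
    · left
      rcases Nat.lt_or_ge (G.dist c u) 2 with h3 | h3
      · right; omega
      · left; exact ⟨mem_univ _, hu2, by omega⟩
  have h2 := card_le_card h1
  have h3 := card_union_le ((univ.filter fun y => y ∉ U ∧ G.dist c y = 2) ∪ nb G c) {c}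
  have h4 := card_union_le (univ.filter fun y => y ∉ U ∧ G.dist c y = 2) (nb G c)
  rw [hd] at h4
  rw [card_singleton] at h3
  have h5 : (univ.filter fun y => y ∉ U ∧ G.dist c y = 2).card = rO G U c := by
    unfold rO
    rw [card_filter]
  omega

/-- The global inequality. -/
lemma hub_ineq (hc : G.Connected) (hd : ∀ v, (nb G v).card = d) (h1 : 1 ≤ d)
    (h3 : ∀ u v, G.dist u v ≤ 3) (hn : Fintype.card V = d ^ 2 + 1) (t : ℕ)
    (hU : ∀ c, c ∉ U → (ball G c).card ≤ t) :
    6 * (d : ℤ) ^ 2 * (d ^ 2 + 1) ^ 2 ≤ 3 * d ^ 3 * pairs2 G +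
      24 * d ^ 2 * (d ^ 2 + 1) * U.card + (d ^ 2 + 1) ^ 3 + 6 * d ^ 3 * (d + 1) * U.card +
      3 * d * t * pairs G + 6 * d ^ 2 * pairs G := by
  have e1 := stepE (U := U) hc hd
  have e2 := stepD2 (U := U) hc hd h1 h3 hn
  have e3 := pairs2_ge (G := G) (U := U)
  set W := univ.filter (fun x : V => x ∉ U) with hW
  have e4 : ∑ c, (sgSet G U c).card ^ 2 ≤ ∑ c ∈ U, (sgSet G U c).card ^ 2 + t * pairs G := by
    rw [← sum_filter_add_sum_filter_not univ (fun x => x ∈ U)]
    have z2 : univ.filter (fun x : V => x ∈ U) = U := by ext x; simp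
    rw [z2]
    apply Nat.add_le_add_left
    calc ∑ c ∈ univ.filter (fun x : V => ¬ x ∈ U), (sgSet G U c).card ^ 2
        ≤ ∑ c ∈ univ.filter (fun x : V => ¬ x ∈ U), t * (ball G c).card := by
          apply sum_le_sum
          intro c hcU
          have a1 : (sgSet G U c).card ≤ (ball G c).card :=
            card_le_card ((sg_subset hc c).trans (filter_subset _ _))
          have a2 := hU c (mem_filter.1 hcU).2
          rw [sq]
          exact Nat.mul_le_mul (a1.trans a2) a1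
      _ ≤ ∑ c, t * (ball G c).card :=
          sum_le_sum_of_subset_of_nonneg (filter_subset _ _) (fun _ _ _ => Nat.zero_le _)
      _ = t * pairs G := by rw [← mul_sum]; rfl
  have e5 : ∑ b, ((univ.filter fun x => x ∉ U ∧ Sees G U x b).card + (jSet G U b).card +
      U.card) = (d ^ 2 + 1) * (d ^ 2 + 1) := by
    rw [sum_congr rfl (fun b _ => stepJ b), sum_const, card_univ, smul_eq_mul, hn]
  simp_rw [sum_add_distrib] at e5
  rw [sum_const, card_univ, hn, smul_eq_mul] at e5
  have e6 : ∑ b, (jSet G U b).card ≤ ∑ b ∈ W, (jSet G U b).card + U.card * (d ^ 2 + 1) := by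
    rw [← sum_filter_add_sum_filter_not univ (fun x => x ∉ U)]
    apply Nat.add_le_add_left
    have z2 : univ.filter (fun x : V => ¬ x ∉ U) = U := by ext x; simp
    rw [z2]
    calc ∑ b ∈ U, (jSet G U b).card ≤ ∑ b ∈ U, (d ^ 2 + 1) := by
          apply sum_le_sum
          intro b _
          rw [← hn]
          exact card_le_univ _
      _ = U.card * (d ^ 2 + 1) := by rw [sum_const, smul_eq_mul]
  have e7 : ∑ c ∈ U, (rbSet G U c).card ≤ ∑ c ∈ U, rO G U c + U.card * (d + 1) := by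
    calc ∑ c ∈ U, (rbSet G U c).card ≤ ∑ c ∈ U, (rO G U c + (d + 1)) :=
          sum_le_sum fun c _ => rb_le_rO hc hd c
      _ = _ := by rw [sum_add_distrib, sum_const, smul_eq_mul]
  rw [sum_sub_distrib, ← mul_sum] at e2
  rw [hn] at e1
  have c1 : 2 * (d : ℤ) * ∑ b, ((univ.filter fun x => x ∉ U ∧ Sees G U x b).card : ℤ) ≤
      d ^ 2 * pairsO G U + 4 * d * (d ^ 2 + 1) * U.card + ∑ c, ((sgSet G U c).card : ℤ) ^ 2 +
      2 * d * pairs G := by exact_mod_cast e1
  have c3 : (pairsO G U : ℤ) + 2 * ∑ c ∈ U, (rO G U c : ℤ) ≤ pairs2 G := by exact_mod_cast e3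
  have c4 : ∑ c, ((sgSet G U c).card : ℤ) ^ 2 ≤
      ∑ c ∈ U, ((sgSet G U c).card : ℤ) ^ 2 + t * pairs G := by exact_mod_cast e4
  have c5 : ∑ b, ((univ.filter fun x => x ∉ U ∧ Sees G U x b).card : ℤ) +
      ∑ b, ((jSet G U b).card : ℤ) + (d ^ 2 + 1) * U.card = (d ^ 2 + 1) * (d ^ 2 + 1) := by
    exact_mod_cast e5
  have c6 : ∑ b, ((jSet G U b).card : ℤ) ≤ ∑ b ∈ W, ((jSet G U b).card : ℤ) +
      U.card * (d ^ 2 + 1) := by exact_mod_cast e6
  have c7 : ∑ c ∈ U, ((rbSet G U c).card : ℤ) ≤ ∑ c ∈ U, (rO G U c : ℤ) +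
      U.card * (d + 1) := by exact_mod_cast e7
  have hd0 : (0 : ℤ) ≤ d := by positivity
  generalize ∑ b, ((univ.filter fun x => x ∉ U ∧ Sees G U x b).card : ℤ) = A at *
  generalize ∑ b, ((jSet G U b).card : ℤ) = J at *
  generalize ∑ b ∈ W, ((jSet G U b).card : ℤ) = JW at *
  generalize ∑ c ∈ U, ((rbSet G U c).card : ℤ) = RB at *
  generalize ∑ c ∈ U, (rO G U c : ℤ) = RO at *
  generalize ∑ c, ((sgSet G U c).card : ℤ) ^ 2 = SG at *
  generalize ∑ c ∈ U, ((sgSet G U c).card : ℤ) ^ 2 = SU at *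
  generalize (pairsO G U : ℤ) = NO at *
  generalize (pairs2 G : ℤ) = N at *
  generalize (pairs G : ℤ) = M at *
  generalize (U.card : ℤ) = w at *
  generalize (t : ℤ) = t at *
  generalize (d : ℤ) = x at *
  have g1 : 3 * x * (2 * x * A) ≤ 3 * x * (x ^ 2 * NO + 4 * x * (x ^ 2 + 1) * w + SG +
      2 * x * M) := mul_le_mul_of_nonneg_left c1 (by positivity)
  have g3 : 3 * x ^ 3 * (NO + 2 * RO) ≤ 3 * x ^ 3 * N :=
    mul_le_mul_of_nonneg_left c3 (by positivity)
  have g4 : 3 * x * SG ≤ 3 * x * (SU + t * M) := mul_le_mul_of_nonneg_left c4 (by positivity)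
  have g6 : 6 * x ^ 2 * J ≤ 6 * x ^ 2 * (JW + w * (x ^ 2 + 1)) :=
    mul_le_mul_of_nonneg_left c6 (by positivity)
  have g7 : 6 * x ^ 3 * RB ≤ 6 * x ^ 3 * (RO + w * (x + 1)) :=
    mul_le_mul_of_nonneg_left c7 (by positivity)
  have g5 : 6 * x ^ 2 * (A + J + (x ^ 2 + 1) * w) = 6 * x ^ 2 * ((x ^ 2 + 1) * (x ^ 2 + 1)) := by
    rw [c5]
  nlinarith

end Pool.Agent.MP_aeedc9_co
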