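import Pool.Agent.Lib.MP_aeedc9_co.Half

/-!
# The inequality with a set of hubs, and oriented relations
-/

set_option autoImplicit false
set_option linter.unusedSectionVars false

namespace Pool.Agent.MP_aeedc9_co

open Finset
open scoped Classical

variable {V : Type*} [Fintype V] {G : SimpleGraph V} {d : ℕ} {U : Finset V}

/-- Some neighbour of `b` outside `U` is at distance at most two from `x`. -/
def Sees (G : SimpleGraph V) (U : Finset V) (x b : V) : Prop :=
  ∃ y, G.Adj b y ∧ y ∉ U ∧ G.dist x y ≤ 2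

/-- Some neighbour of `a` outside `U` is equal or adjacent to `c`. -/
def Foot (G : SimpleGraph V) (U : Finset V) (c a : V) : Prop :=
  ∃ x, G.Adj a x ∧ x ∉ U ∧ (x = c ∨ G.Adj x c)

/-- The neighbours outside `U`. -/
noncomputable def nbo (G : SimpleGraph V) (U : Finset V) (a : V) : Finset V :=
  (nb G a).filter fun x => x ∉ U

lemma mem_nbo {a x : V} : x ∈ nbo G U a ↔ G.Adj a x ∧ x ∉ U := by simp [nbo]

lemma mid_of_dist (hc : G.Connected) {x y : V} (h : G.dist x y ≤ 2) :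
    ∃ c, (x = c ∨ G.Adj x c) ∧ (y = c ∨ G.Adj y c) := by
  rcases dist_step hc (k := 1) h with rfl | ⟨z, hz, h1⟩
  · exact ⟨x, Or.inl rfl, Or.inl rfl⟩
  · rcases dist_step hc (k := 0) h1 with rfl | ⟨w, hw, h0⟩
    · exact ⟨z, Or.inr hz, Or.inl rfl⟩
    · have h3 : w = y := by
        by_contra hne
        have := hc.pos_dist_of_ne hne
        omega
      subst h3
      exact ⟨z, Or.inr hz, Or.inr hw.symm⟩

/-- The inequality for one pair, with hubs. -/
lemma pair_ineq2 (hc : G.Connected) (a b : V) :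
    ((nbo G U a).filter fun x => Sees G U x b).card +
      ((nbo G U b).filter fun y => Sees G U y a).card ≤
      ((nbo G U a ×ˢ nbo G U b).filter fun z => G.dist z.1 z.2 = 2).card +
      (univ.filter fun c => Foot G U c a ∧ Foot G U c b).card +
      ((nbo G U a).filter fun x => G.dist x b ≤ 2).card +
      ((nbo G U b).filter fun y => G.dist y a ≤ 2).card := by
  set P : V → Finset V := fun c => (nbo G U a).filter fun x => x = c ∨ G.Adj x c with hP
  set Q : V → Finset V := fun c => (nbo G U b).filter fun x => x = c ∨ G.Adj x c with hQ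
  set C : Finset V := univ.filter fun c => Foot G U c a ∧ Foot G U c b with hC
  set S := (nbo G U a).filter fun x => G.dist x b ≤ 2 with hS
  set T := (nbo G U b).filter fun y => G.dist y a ≤ 2 with hT
  have hPn : ∀ c, Foot G U c a → (P c).Nonempty := by
    rintro c ⟨x, h1, h2, h3⟩
    exact ⟨x, mem_filter.2 ⟨mem_nbo.2 ⟨h1, h2⟩, h3⟩⟩
  have hQn : ∀ c, Foot G U c b → (Q c).Nonempty := by
    rintro c ⟨x, h1, h2, h3⟩
    exact ⟨x, mem_filter.2 ⟨mem_nbo.2 ⟨h1, h2⟩, h3⟩⟩
  have key := cover C P Q S T (fun c hc => hPn c (mem_filter.1 hc).2.1)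
    (fun c hc => hQn c (mem_filter.1 hc).2.2)
  have hX : ((nbo G U a).filter fun x => Sees G U x b).card ≤ (S ∪ C.biUnion P).card := by
    apply card_le_card
    intro x hx
    apply mem_union_right
    obtain ⟨hx, y, h1, h2, h3⟩ := mem_filter.1 hx
    obtain ⟨c, h4, h5⟩ := mid_of_dist hc h3
    rw [mem_biUnion]
    refine ⟨c, mem_filter.2 ⟨mem_univ _, ?_, ?_⟩, mem_filter.2 ⟨hx, h4⟩⟩
    · exact ⟨x, (mem_nbo.1 hx).1, (mem_nbo.1 hx).2, h4⟩
    · exact ⟨y, h1, h2, h5⟩
  have hY : ((nbo G U b).filter fun x => Sees G U x a).card ≤ (T ∪ C.biUnion Q).card := by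
    apply card_le_card
    intro x hx
    apply mem_union_right
    obtain ⟨hx, y, h1, h2, h3⟩ := mem_filter.1 hx
    obtain ⟨c, h4, h5⟩ := mid_of_dist hc h3
    rw [mem_biUnion]
    refine ⟨c, mem_filter.2 ⟨mem_univ _, ?_, ?_⟩, mem_filter.2 ⟨hx, h4⟩⟩
    · exact ⟨y, h1, h2, h5⟩
    · exact ⟨x, (mem_nbo.1 hx).1, (mem_nbo.1 hx).2, h4⟩
  have hB : ((C.biUnion fun c => P c ×ˢ Q c) \ (S ×ˢ T)).card ≤
      ((nbo G U a ×ˢ nbo G U b).filter fun z => G.dist z.1 z.2 = 2).card := by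
    apply card_le_card
    rintro ⟨x, y⟩ hz
    rw [mem_sdiff, mem_biUnion] at hz
    obtain ⟨⟨c, -, h4⟩, h5⟩ := hz
    rw [mem_product] at h4 h5
    obtain ⟨hx, hxc⟩ := mem_filter.1 h4.1
    obtain ⟨hy, hyc⟩ := mem_filter.1 h4.2
    dsimp only at hx hy hxc hyc h5
    refine mem_filter.2 ⟨mem_product.2 ⟨hx, hy⟩, ?_⟩
    dsimp only
    have h6 : G.dist x y ≤ 2 := by
      have := hc.dist_triangle (u := x) (v := c) (w := y)
      have h7 := dist_le_one hxc
      have h8 := dist_le_one hyc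
      rw [SimpleGraph.dist_comm] at h8
      omega
    by_contra h7
    have h8 : G.dist x y ≤ 1 := by omega
    apply h5
    have hxa : G.dist x a = 1 := SimpleGraph.dist_eq_one_iff_adj.2 (mem_nbo.1 hx).1.symm
    have hyb : G.dist y b = 1 := SimpleGraph.dist_eq_one_iff_adj.2 (mem_nbo.1 hy).1.symm
    refine ⟨mem_filter.2 ⟨hx, ?_⟩, mem_filter.2 ⟨hy, ?_⟩⟩
    · have := hc.dist_triangle (u := x) (v := y) (w := b)
      omega
    · have := hc.dist_triangle (u := y) (v := x) (w := a)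
      rw [SimpleGraph.dist_comm] at h8
      omega
  omega

lemma foot_ball (hc : G.Connected) {c a : V} (h : Foot G U c a) : a ∈ ball G c := by
  obtain ⟨x, h1, -, h3⟩ := h
  have h4 := dist_le_one h3
  have h5 : G.dist a x = 1 := SimpleGraph.dist_eq_one_iff_adj.2 h1
  have := hc.dist_triangle (u := a) (v := x) (w := c)
  rw [mem_ball, SimpleGraph.dist_comm]
  omega

lemma sees_of_foot (hc : G.Connected) {c a b : V} (h : Foot G U c a) (hb : G.Adj b c) :
    Sees G U b a := by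
  obtain ⟨x, h1, h2, h3⟩ := h
  refine ⟨x, h1, h2, ?_⟩
  have h4 := dist_le_one h3
  have h5 : G.dist b c = 1 := SimpleGraph.dist_eq_one_iff_adj.2 hb
  have := hc.dist_triangle (u := b) (v := c) (w := x)
  rw [SimpleGraph.dist_comm] at h4
  omega

lemma exists_hub (hc : G.Connected) {x b : V} (h : G.dist x b ≤ 3) (hb : ∃ y, G.Adj b y)
    (hs : ¬ Sees G U x b) : ∃ c ∈ U, G.Adj b c ∧ G.dist c x ≤ 2 := by
  obtain ⟨c, y, h4, h5, h6⟩ := exists_mid hc h hb
  have h7 : G.dist x y ≤ 2 := by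
    have := hc.dist_triangle (u := x) (v := c) (w := y)
    have h7 := dist_le_one h4
    have h8 := dist_le_one h6
    rw [SimpleGraph.dist_comm] at h8
    omega
  refine ⟨y, ?_, h5, by rw [SimpleGraph.dist_comm]; exact h7⟩
  by_contra h8
  exact hs ⟨y, h5, h8, h7⟩

/-- Sum of the squares of the out-degrees of an oriented relation. -/
lemma sum_sq_le (R : V → V → Prop) (hR : ∀ x y, R x y → ¬ R y x) (W : Finset V) :
    3 * ∑ b ∈ W, (W.filter fun x => R b x).card ^ 2 ≤ W.card ^ 3 := by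
  set f : V → V → V → ℕ := fun p q r => (if R p q then 1 else 0) * (if R p r then 1 else 0)
    with hf
  have h1 : ∑ b ∈ W, (W.filter fun x => R b x).card ^ 2 =
      ∑ p ∈ W, ∑ q ∈ W, ∑ r ∈ W, f p q r := by
    apply sum_congr rfl
    intro b _
    rw [card_filter, sq, sum_mul_sum]
  have h2 : ∑ p ∈ W, ∑ q ∈ W, ∑ r ∈ W, f p q r = ∑ p ∈ W, ∑ q ∈ W, ∑ r ∈ W, f q p r := by
    rw [sum_comm]
  have h3 : ∑ p ∈ W, ∑ q ∈ W, ∑ r ∈ W, f p q r = ∑ p ∈ W, ∑ q ∈ W, ∑ r ∈ W, f r p q := by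
    calc ∑ p ∈ W, ∑ q ∈ W, ∑ r ∈ W, f p q r
        = ∑ p ∈ W, ∑ q ∈ W, ∑ r ∈ W, f q p r := h2
      _ = ∑ p ∈ W, ∑ r ∈ W, ∑ q ∈ W, f q p r := by
          apply sum_congr rfl
          intro p _
          rw [sum_comm]
  have h4 : 3 * ∑ p ∈ W, ∑ q ∈ W, ∑ r ∈ W, f p q r =
      ∑ p ∈ W, ∑ q ∈ W, ∑ r ∈ W, (f p q r + f q p r + f r p q) := by
    simp_rw [sum_add_distrib]
    rw [← h2, ← h3]
    ring
  rw [h1, h4]
  calc ∑ p ∈ W, ∑ q ∈ W, ∑ r ∈ W, (f p q r + f q p r + f r p q)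
      ≤ ∑ p ∈ W, ∑ q ∈ W, ∑ r ∈ W, 1 := by
        apply sum_le_sum; intro p _
        apply sum_le_sum; intro q _
        apply sum_le_sum; intro r _
        have e : ∀ u v w, f u v w = if R u v ∧ R u w then 1 else 0 := by
          intro u v w
          simp only [hf]
          by_cases c1 : R u v
          · by_cases c2 : R u w
            · simp [c1, c2]
            · simp [c1, c2]
          · simp [c1]
        rw [e, e, e]
        by_cases b1 : R p q ∧ R p r
        · have n2 : ¬ (R q p ∧ R q r) := fun h => hR p q b1.1 h.1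
          have n3 : ¬ (R r p ∧ R r q) := fun h => hR p r b1.2 h.1
          rw [if_pos b1, if_neg n2, if_neg n3]
        · by_cases b2 : R q p ∧ R q r
          · have n3 : ¬ (R r p ∧ R r q) := fun h => hR q r b2.2 h.2
            rw [if_neg b1, if_pos b2, if_neg n3]
          · rw [if_neg b1, if_neg b2]
            split_ifs <;> simp
    _ = W.card ^ 3 := by
        simp only [sum_const, smul_eq_mul]
        ring

/-- The scalar inequality for one vertex. -/
lemma scalar_ineq {D j1 j2 g S Q : ℤ} (hj1 : 0 ≤ j1) (hjD : j1 ≤ D)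
    (hS : 0 ≤ S) (hi : j1 + j2 ≤ g) (hii : j2 + S ≤ g) (hQ1 : Q ≤ D * S) (hQ2 : Q ≤ S * S) :
    2 * D * (j1 + j2) + Q - 2 * D * g ≤ j1 ^ 2 := by
  rcases le_or_gt S j1 with h | h
  · nlinarith
  · rcases le_or_gt S D with h2 | h2
    · nlinarith
    · nlinarith [sq_nonneg (j1 - D)]

end Pool.Agent.MP_aeedc9_co
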