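import Pool.Agent.Lib.MP_aeedc9_co.Count
import Pool.Agent.Lib.MP_aeedc9_co.Gd

/-!
# The case of equality
-/

set_option autoImplicit false
set_option linter.unusedSectionVars false

namespace Pool.Agent.MP_aeedc9_co

open Finset
open scoped Classical

variable {V : Type*} [Fintype V] {G : SimpleGraph V} {m : ℕ} {x : V}

lemma dg_pos {v w j : V} (hw : w ∈ row G x j) (hvw : G.Adj v w) : 1 ≤ dg G x v j := by
  unfold dg
  calc 1 = if G.Adj v w then 1 else 0 := (if_pos hvw).symm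
    _ ≤ _ := single_le_sum (f := fun w => if G.Adj v w then 1 else 0)
      (fun _ _ => Nat.zero_le _) hw

lemma exists_of_dg {v j : V} (h : 1 ≤ dg G x v j) : ∃ w ∈ row G x j, G.Adj v w := by
  by_contra hcon
  push Not at hcon
  have : dg G x v j = 0 := sum_eq_zero fun w hw => if_neg (hcon w hw)
  omega

lemma ell_pos {i j v : V} (hv : v ∈ row G x i) (h : 1 ≤ dg G x v j) : 1 ≤ ell G x i j :=
  h.trans (single_le_sum (f := fun v => dg G x v j) (fun _ _ => Nat.zero_le _) hv)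

section

variable (h : Cls G x m) (h0 : Rho G x = 0)

include h h0

lemma rho_zero {i : V} (hi : G.Adj x i) : rho G x i = 0 :=
  (sum_eq_zero_iff.1 h0) i (mem_nb.2 hi)

lemma nn_zero {i p : V} (hi : G.Adj x i) (hp : p ∈ row G x i) : nn G x p i = 0 :=
  (sum_eq_zero_iff.1 (rho_zero h h0 hi)) p hp

lemma adj_row {i p q : V} (hi : G.Adj x i) (hp : p ∈ row G x i) (hq : q ∈ row G x i)
    (hpq : p ≠ q) : G.Adj p q := by
  by_contra hcon
  have h1 := (sum_eq_zero_iff.1 (nn_zero h h0 hi hp)) q hq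
  rw [if_pos ⟨hpq.symm, hcon⟩] at h1
  omega

lemma sum_one {i p : V} (hi : G.Adj x i) (hp : p ∈ row G x i) :
    ∑ j ∈ (nb G x).erase i, dg G x p j = 1 := by
  rw [sum_dg_erase h.toCfg hi hp, nn_zero h h0 hi hp]

lemma dg_uniq {i j j' p : V} (hi : G.Adj x i) (hp : p ∈ row G x i) (hj : G.Adj x j)
    (hj' : G.Adj x j') (hji : j ≠ i) (hji' : j' ≠ i) (h1 : 1 ≤ dg G x p j)
    (h2 : 1 ≤ dg G x p j') : j = j' := by
  by_contra hne
  have h3 := sum_one h h0 hi hp
  have h4 : j ∈ (nb G x).erase i := mem_erase.2 ⟨hji, mem_nb.2 hj⟩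
  have h5 : j' ∈ ((nb G x).erase i).erase j :=
    mem_erase.2 ⟨fun h6 => hne h6.symm, mem_erase.2 ⟨hji', mem_nb.2 hj'⟩⟩
  rw [← add_sum_erase _ _ h4, ← add_sum_erase _ _ h5] at h3
  omega

lemma ell_ge {i j : V} (hi : G.Adj x i) (hj : G.Adj x j) (hij : i ≠ j) : 1 ≤ ell G x i j := by
  by_contra hcon
  have h1 : ell G x i j = 0 := by omega
  have h2 := h.lnk i j hi hj hij h1
  rw [rho_zero h h0 hi, rho_zero h h0 hj] at h2
  have hm : 1 ≤ m := by
    rw [← card_er h.toCfg hi]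
    exact card_pos.2 ⟨j, mem_erase.2 ⟨hij.symm, mem_nb.2 hj⟩⟩
  have h3 : ∃ p ∈ row G x i, ∃ q ∈ row G x j, G.dist p q ≤ 2 := by
    by_contra h4
    push Not at h4
    have : nr G x i j = 0 := sum_eq_zero fun p hp => sum_eq_zero fun q hq =>
      if_neg (by have := h4 p hp q hq; omega)
    omega
  obtain ⟨p, hp, q, hq, h4⟩ := h3
  have hpq : p ≠ q := by
    rintro rfl
    exact hij ((uniq h.toCfg hj hq).2 i hi hp)
  have hadj : ¬ G.Adj p q := fun h5 => hcon (ell_pos hp (dg_pos hq h5))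
  obtain ⟨z, hpz, hzq⟩ : ∃ z, G.Adj p z ∧ G.Adj z q := by
    rcases dist_step h.conn (k := 1) h4 with h5 | ⟨z, hz, h5⟩
    · exact absurd h5 hpq
    · rcases dist_step h.conn (k := 0) h5 with h6 | ⟨w, hw, h6⟩
      · rw [h6] at hz
        exact absurd hz hadj
      · have h7 : w = q := h.conn.dist_eq_zero_iff.1 (by omega)
        rw [h7] at hw
        exact ⟨z, hz, hw⟩
  rcases cov h.toCfg z with h5 | h5 | ⟨k, hk, h5⟩
  · rw [h5] at hpz
    exact (uniq h.toCfg hi hp).1 hpz.symm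
  · have h6 := (uniq h.toCfg hi hp).2 z h5 (mem_row.2 ⟨(mem_row.1 hp).1, hpz.symm⟩)
    have h7 := (uniq h.toCfg hj hq).2 z h5 (mem_row.2 ⟨(mem_row.1 hq).1, hzq⟩)
    exact hij (h6.symm.trans h7)
  · by_cases hki : k = i
    · rw [hki] at h5
      exact hcon (ell_pos h5 (dg_pos hq hzq))
    · by_cases hkj : k = j
      · rw [hkj] at h5
        exact hcon (ell_pos hp (dg_pos h5 hpz))
      · exact hij (dg_uniq h h0 hk h5 hi hj (Ne.symm hki) (Ne.symm hkj) (dg_pos hp hpz.symm)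
          (dg_pos hq hzq))

lemma ell_one {i j : V} (hi : G.Adj x i) (hj : G.Adj x j) (hij : i ≠ j) : ell G x i j = 1 := by
  have h1 := sum_ell h.toCfg hi
  rw [rho_zero h h0 hi, zero_add] at h1
  have h2 := card_er h.toCfg hi
  rw [card_eq_sum_ones] at h2
  by_contra hne
  have h3 : ∑ j ∈ (nb G x).erase i, 1 < ∑ j ∈ (nb G x).erase i, ell G x i j := by
    apply sum_lt_sum
    · intro k hk
      exact ell_ge h h0 hi (mem_nb.1 (mem_erase.1 hk).2) (mem_erase.1 hk).1.symm
    · refine ⟨j, mem_erase.2 ⟨hij.symm, mem_nb.2 hj⟩, ?_⟩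
      have := ell_ge h h0 hi hj hij
      omega
  omega

lemma ell_uniq {i j p q : V} (hi : G.Adj x i) (hj : G.Adj x j) (hij : i ≠ j)
    (hp : p ∈ row G x i) (hq : q ∈ row G x i) (h1 : 1 ≤ dg G x p j) (h2 : 1 ≤ dg G x q j) :
    p = q := by
  by_contra hne
  have h3 := ell_one h h0 hi hj hij
  unfold ell at h3
  rw [← add_sum_erase _ _ hp, ← add_sum_erase _ _
    (mem_erase.2 ⟨fun h4 => hne h4.symm, hq⟩ : q ∈ (row G x i).erase p)] at h3
  omega

lemma exists_hh {i j : V} (hi : G.Adj x i) (hj : G.Adj x j) (hij : i ≠ j) :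
    ∃ v, v ∈ row G x i ∧ 1 ≤ dg G x v j := by
  by_contra hcon
  push Not at hcon
  have h1 := ell_ge h h0 hi hj hij
  have : ell G x i j = 0 := sum_eq_zero fun v hv => by
    have := hcon v hv
    omega
  omega

end

/-- The vertex of the row of `i` which is adjacent to a vertex of the row of `j`. -/
noncomputable def hh (G : SimpleGraph V) (x i j : V) : V :=
  if h : ∃ v, v ∈ row G x i ∧ 1 ≤ dg G x v j then h.choose else i

lemma hh_spec (h : Cls G x m) (h0 : Rho G x = 0) {i j : V} (hi : G.Adj x i) (hj : G.Adj x j)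
    (hij : i ≠ j) : hh G x i j ∈ row G x i ∧ 1 ≤ dg G x (hh G x i j) j := by
  have h1 := exists_hh h h0 hi hj hij
  unfold hh
  rw [dif_pos h1]
  exact h1.choose_spec

/-- The map from `G_d` to `G`. -/
noncomputable def phi (G : SimpleGraph V) (x : V) {d : ℕ} (e : Fin d → V) : GdV d → V
  | .inl _ => x
  | .inr (.inl i) => e i
  | .inr (.inr p) => hh G x (e p.1.1) (e p.1.2)

/-- **The case of equality.** -/
theorem iso_of (h : Cls G x m) (h0 : Rho G x = 0) : Nonempty (Gd (m + 1) ≃g G) := by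
  set e' := (nb G x).equivFinOfCardEq (h.reg x) with he'
  set e : Fin (m + 1) → V := fun i => (e'.symm i : V) with he
  have hadj : ∀ i, G.Adj x (e i) := fun i => mem_nb.1 (e'.symm i).2
  have hinj : ∀ i j, e i = e j → i = j := fun i j hij =>
    e'.symm.injective (Subtype.ext hij)
  have hsurj : ∀ v, G.Adj x v → ∃ i, e i = v := fun v hv =>
    ⟨e' ⟨v, mem_nb.2 hv⟩, by simp [he]⟩
  have hsp : ∀ p : {p : Fin (m + 1) × Fin (m + 1) // p.1 ≠ p.2},
      hh G x (e p.1.1) (e p.1.2) ∈ row G x (e p.1.1) ∧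
        1 ≤ dg G x (hh G x (e p.1.1) (e p.1.2)) (e p.1.2) := fun p =>
    hh_spec h h0 (hadj _) (hadj _) fun h1 => p.2 (hinj _ _ h1)
  have hne : ∀ p : {p : Fin (m + 1) × Fin (m + 1) // p.1 ≠ p.2}, e p.1.2 ≠ e p.1.1 := fun p h1 =>
    p.2 (hinj _ _ h1.symm)
  have hleaf : ∀ p q : {p : Fin (m + 1) × Fin (m + 1) // p.1 ≠ p.2},
      hh G x (e p.1.1) (e p.1.2) = hh G x (e q.1.1) (e q.1.2) → p = q := by
    intro p q hpq
    have h1 := hsp p
    have h2 := hsp q
    have h3 : p.1.1 = q.1.1 := by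
      rw [hpq] at h1
      exact hinj _ _ ((uniq h.toCfg (hadj _) h2.1).2 _ (hadj _) h1.1)
    have h4 : p.1.2 = q.1.2 := by
      apply hinj
      rw [hpq] at h1
      exact dg_uniq h h0 (hadj _) h2.1 (hadj _) (hadj _) (by rw [← h3]; exact hne p) (hne q)
        h1.2 h2.2
    exact Subtype.ext (Prod.ext h3 h4)
  have hbij : Function.Bijective (phi G x e) := by
    constructor
    · rintro (a | i | p) (b | j | q) hab
      · rfl
      · exact absurd hab.symm (hadj j).ne'
      · exact absurd hab.symm (mem_row.1 (hsp q).1).1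
      · exact absurd hab (hadj i).ne'
      · exact congrArg (fun i => Sum.inr (Sum.inl i)) (hinj _ _ hab)
      · exfalso
        have h1 : e i = hh G x (e q.1.1) (e q.1.2) := hab
        exact (uniq h.toCfg (hadj _) (hsp q).1).1 (h1 ▸ hadj i)
      · exact absurd hab (mem_row.1 (hsp p).1).1
      · exfalso
        have h1 : hh G x (e p.1.1) (e p.1.2) = e j := hab
        exact (uniq h.toCfg (hadj _) (hsp p).1).1 (h1.symm ▸ hadj j)
      · exact congrArg (fun i => Sum.inr (Sum.inr i)) (hleaf p q hab)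
    · intro v
      rcases cov h.toCfg v with h1 | h1 | ⟨i, hi, h1⟩
      · exact ⟨.inl (), h1.symm⟩
      · obtain ⟨i, hi⟩ := hsurj v h1
        exact ⟨.inr (.inl i), hi⟩
      · have h2 := sum_one h h0 hi h1
        obtain ⟨j, hj, h3⟩ : ∃ j ∈ (nb G x).erase i, 1 ≤ dg G x v j := by
          by_contra hcon
          push Not at hcon
          have : ∑ j ∈ (nb G x).erase i, dg G x v j = 0 := sum_eq_zero fun j hj => by
            have := hcon j hj
            omega
          omega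
        have hj' := mem_nb.1 (mem_erase.1 hj).2
        have hji := (mem_erase.1 hj).1
        obtain ⟨a, ha⟩ := hsurj i hi
        obtain ⟨b, hb⟩ := hsurj j hj'
        have hab : a ≠ b := fun h4 => hji (by rw [← ha, ← hb, h4])
        refine ⟨.inr (.inr ⟨(a, b), hab⟩), ?_⟩
        have h5 := hsp ⟨(a, b), hab⟩
        rw [ha, hb] at h5
        have h6 : hh G x i j = v := ell_uniq h h0 hi hj' hji.symm h5.1 h1 h5.2 h3
        calc phi G x e (.inr (.inr ⟨(a, b), hab⟩)) = hh G x (e a) (e b) := rfl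
          _ = v := by rw [ha, hb, h6]
  have hii : ∀ i j, ¬ G.Adj (e i) (e j) := by
    intro i j hij
    exact (uniq h.toCfg (hadj i) (mem_row.2 ⟨(hadj j).ne', hij⟩)).1 (hadj j)
  have hxp : ∀ p : {p : Fin (m + 1) × Fin (m + 1) // p.1 ≠ p.2},
      ¬ G.Adj x (hh G x (e p.1.1) (e p.1.2)) := fun p => (uniq h.toCfg (hadj _) (hsp p).1).1
  have hip : ∀ (i : Fin (m + 1)) (p : {p : Fin (m + 1) × Fin (m + 1) // p.1 ≠ p.2}),
      G.Adj (e i) (hh G x (e p.1.1) (e p.1.2)) ↔ p.1.1 = i := by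
    intro i p
    constructor
    · intro h1
      exact (hinj _ _ ((uniq h.toCfg (hadj _) (hsp p).1).2 (e i) (hadj i)
        (mem_row.2 ⟨(mem_row.1 (hsp p).1).1, h1⟩))).symm
    · rintro rfl
      exact (mem_row.1 (hsp p).1).2
  have hpq : ∀ p q : {p : Fin (m + 1) × Fin (m + 1) // p.1 ≠ p.2}, p ≠ q →
      (G.Adj (hh G x (e p.1.1) (e p.1.2)) (hh G x (e q.1.1) (e q.1.2)) ↔
        (p.1.1 = q.1.1 ∨ (p.1.1 = q.1.2 ∧ p.1.2 = q.1.1))) := by
    intro p q hne'
    constructor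
    · intro h1
      by_cases h2 : p.1.1 = q.1.1
      · exact Or.inl h2
      right
      have h3 : 1 ≤ dg G x (hh G x (e p.1.1) (e p.1.2)) (e q.1.1) := dg_pos (hsp q).1 h1
      have h4 : 1 ≤ dg G x (hh G x (e q.1.1) (e q.1.2)) (e p.1.1) := dg_pos (hsp p).1 h1.symm
      refine ⟨hinj _ _ ?_, hinj _ _ ?_⟩
      · exact dg_uniq h h0 (hadj _) (hsp q).1 (hadj _) (hadj _) (fun h5 => h2 (hinj _ _ h5))
          (hne q) h4 (hsp q).2
      · exact dg_uniq h h0 (hadj _) (hsp p).1 (hadj _) (hadj _) (hne p)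
          (fun h5 => h2 (hinj _ _ h5).symm) (hsp p).2 h3
    · rintro (h1 | ⟨h1, h2⟩)
      · refine adj_row h h0 (hadj p.1.1) (hsp p).1 ?_ fun h2 => hne' (hleaf p q h2)
        rw [h1]
        exact (hsp q).1
      · obtain ⟨w, hw, h3⟩ := exists_of_dg (hsp p).2
        have h4 : 1 ≤ dg G x w (e p.1.1) := dg_pos (hsp p).1 h3.symm
        have h5 : w = hh G x (e q.1.1) (e q.1.2) := by
          rw [h2] at hw
          rw [h1] at h4
          exact ell_uniq h h0 (hadj _) (hadj _) (hne q).symm hw (hsp q).1 h4 (hsp q).2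
        rw [← h5]
        exact h3
  refine ⟨⟨Equiv.ofBijective _ hbij, ?_⟩⟩
  intro a b
  show G.Adj (phi G x e a) (phi G x e b) ↔ (Gd (m + 1)).Adj a b
  unfold Gd
  rw [SimpleGraph.fromRel_adj]
  rcases a with (a | i | p) <;> rcases b with (b | j | q)
  · simp [phi]
  · have h1 : G.Adj (phi G x e (.inl a)) (phi G x e (.inr (.inl j))) := hadj j
    simp only [h1, gdRel, true_iff]
    exact ⟨by simp, Or.inl trivial⟩
  · have h1 : ¬ G.Adj (phi G x e (.inl a)) (phi G x e (.inr (.inr q))) := hxp q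
    simp [h1, gdRel]
  · have h1 : G.Adj (phi G x e (.inr (.inl i))) (phi G x e (.inl b)) := (hadj i).symm
    simp only [h1, gdRel, true_iff]
    exact ⟨by simp, Or.inr trivial⟩
  · have h1 : ¬ G.Adj (phi G x e (.inr (.inl i))) (phi G x e (.inr (.inl j))) := hii i j
    simp [h1, gdRel]
  · have h1 : G.Adj (phi G x e (.inr (.inl i))) (phi G x e (.inr (.inr q))) ↔ q.1.1 = i :=
      hip i q
    rw [h1]
    simp [gdRel]
  · have h1 : ¬ G.Adj (phi G x e (.inr (.inr p))) (phi G x e (.inl b)) := fun h2 => hxp p h2.symm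
    simp [h1, gdRel]
  · have h1 : G.Adj (phi G x e (.inr (.inr p))) (phi G x e (.inr (.inl j))) ↔ p.1.1 = j := by
      rw [G.adj_comm]
      exact hip j p
    rw [h1]
    simp [gdRel]
  · by_cases hpq' : p = q
    · subst hpq'
      simp
    · have h1 : G.Adj (phi G x e (.inr (.inr p))) (phi G x e (.inr (.inr q))) ↔
          (p.1.1 = q.1.1 ∨ (p.1.1 = q.1.2 ∧ p.1.2 = q.1.1)) := hpq p q hpq'
      rw [h1]
      constructor
      · intro h2
        exact ⟨by simpa using hpq', Or.inl h2⟩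
      · rintro ⟨-, h2 | h2⟩
        · exact h2
        · rcases h2 with h2 | ⟨h2, h3⟩
          · exact Or.inl h2.symm
          · exact Or.inr ⟨h3.symm, h2.symm⟩

end Pool.Agent.MP_aeedc9_co
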