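import Pool.Agent.Lib.MP_aeedc9_co.Final

/-!
# The rows of a radial Moore graph
-/

set_option autoImplicit false
set_option linter.unusedSectionVars false

namespace Pool.Agent.MP_aeedc9_co

open Finset
open scoped Classical

variable {V : Type*} [Fintype V] {G : SimpleGraph V} {m : ℕ} {x : V}

/-- The neighbours of `i` other than `x`. -/
noncomputable def row (G : SimpleGraph V) (x i : V) : Finset V := (nb G i).erase x

lemma mem_row {i v : V} : v ∈ row G x i ↔ v ≠ x ∧ G.Adj i v := by
  unfold row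
  rw [mem_erase, mem_nb]

/-- The hypotheses on the graph: `x` is a centre. -/
structure Cfg (G : SimpleGraph V) (x : V) (m : ℕ) : Prop where
  conn : G.Connected
  reg : ∀ v, (nb G v).card = m + 1
  cen : ∀ v, G.dist x v ≤ 2
  card : Fintype.card V = (m + 1) ^ 2 + 1

lemma card_row (h : Cfg G x m) {i : V} (hi : G.Adj x i) : (row G x i).card = m := by
  unfold row
  rw [card_erase_of_mem (mem_nb.2 hi.symm), h.reg]
  omega

lemma cov (h : Cfg G x m) (v : V) : v = x ∨ G.Adj x v ∨ ∃ i, G.Adj x i ∧ v ∈ row G x i := by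
  by_cases hv : v = x
  · exact Or.inl hv
  right
  rcases dist_step h.conn (k := 1) (h.cen v) with h1 | ⟨z, hz, h1⟩
  · exact absurd h1.symm hv
  · rcases dist_step h.conn (k := 0) h1 with h2 | ⟨w, hw, h2⟩
    · left
      rw [← h2]
      exact hz
    · right
      have h3 : w = v := h.conn.dist_eq_zero_iff.1 (by omega)
      rw [h3] at hw
      exact ⟨z, hz, mem_row.2 ⟨hv, hw⟩⟩

lemma uniq (h : Cfg G x m) {i v : V} (hi : G.Adj x i) (hv : v ∈ row G x i) :
    ¬ G.Adj x v ∧ ∀ j, G.Adj x j → v ∈ row G x j → j = i := by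
  by_contra hcon
  have hcon' : G.Adj x v ∨ ∃ j, G.Adj x j ∧ v ∈ row G x j ∧ j ≠ i := by
    by_contra h1
    push Not at h1
    exact hcon ⟨h1.1, h1.2⟩
  have hsub : (univ : Finset V) ⊆ ({x} ∪ nb G x) ∪ ((row G x i).erase v ∪
      ((nb G x).erase i).biUnion (row G x)) := by
    intro w _
    rw [mem_union, mem_union, mem_union, mem_singleton, mem_nb, mem_erase, mem_biUnion]
    by_cases hwv : w = v
    · subst hwv
      rcases hcon' with h1 | ⟨j, hj, h2, h3⟩
      · exact Or.inl (Or.inr h1)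
      · exact Or.inr (Or.inr ⟨j, mem_erase.2 ⟨h3, mem_nb.2 hj⟩, h2⟩)
    · rcases cov h w with h1 | h1 | ⟨j, hj, h1⟩
      · exact Or.inl (Or.inl h1)
      · exact Or.inl (Or.inr h1)
      · by_cases hji : j = i
        · exact Or.inr (Or.inl ⟨hwv, by rw [← hji]; exact h1⟩)
        · exact Or.inr (Or.inr ⟨j, mem_erase.2 ⟨hji, mem_nb.2 hj⟩, h1⟩)
  have h1 := card_le_card hsub
  have h2 : (({x} ∪ nb G x) ∪ ((row G x i).erase v ∪
      ((nb G x).erase i).biUnion (row G x))).card ≤ (1 + (m + 1)) + ((m - 1) + m * m) := by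
    refine (card_union_le _ _).trans (Nat.add_le_add ?_ ?_)
    · refine (card_union_le _ _).trans ?_
      rw [card_singleton, h.reg]
    · refine (card_union_le _ _).trans (Nat.add_le_add ?_ ?_)
      · rw [card_erase_of_mem hv, card_row h hi]
      · have h3 : ((nb G x).erase i).card = m := by
          rw [card_erase_of_mem (mem_nb.2 hi), h.reg]
          omega
        calc _ ≤ ((nb G x).erase i).card * m := by
              apply card_biUnion_le_card_mul
              intro j hj
              rw [card_row h (mem_nb.1 (mem_erase.1 hj).2)]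
          _ = m * m := by rw [h3]
  have h3 : 1 ≤ m := by
    rw [← card_row h hi]
    exact card_pos.2 ⟨v, hv⟩
  rw [card_univ, h.card] at h1
  have h4 : (m + 1) ^ 2 = m * m + 2 * m + 1 := by ring
  omega

/-- Sums over all vertices. -/
lemma sum_split (h : Cfg G x m) (f : V → ℕ) :
    ∑ v, f v = f x + ∑ i ∈ nb G x, f i + ∑ i ∈ nb G x, ∑ v ∈ row G x i, f v := by
  have h1 : (univ : Finset V) = ({x} ∪ nb G x) ∪ (nb G x).biUnion (row G x) := by
    symm
    rw [eq_univ_iff_forall]
    intro v
    rw [mem_union, mem_union, mem_singleton, mem_nb, mem_biUnion]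
    rcases cov h v with h1 | h1 | ⟨j, hj, h1⟩
    · exact Or.inl (Or.inl h1)
    · exact Or.inl (Or.inr h1)
    · exact Or.inr ⟨j, mem_nb.2 hj, h1⟩
  have h2 : Disjoint ({x} : Finset V) (nb G x) := by
    rw [disjoint_singleton_left, mem_nb]
    exact fun h3 => h3.ne rfl
  have h3 : Disjoint (({x} : Finset V) ∪ nb G x) ((nb G x).biUnion (row G x)) := by
    rw [disjoint_left]
    intro v hv hv2
    rw [mem_biUnion] at hv2
    obtain ⟨i, hi, hvi⟩ := hv2
    rw [mem_union, mem_singleton, mem_nb] at hv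
    rcases hv with hv | hv
    · exact (mem_row.1 hvi).1 hv
    · exact (uniq h (mem_nb.1 hi) hvi).1 hv
  rw [h1, sum_union h3, sum_union h2, sum_singleton, sum_biUnion]
  intro i hi j hj hij
  rw [Function.onFun, disjoint_left]
  intro v hv hv2
  exact hij ((uniq h (mem_nb.1 hj) hv2).2 i (mem_nb.1 hi) hv)

/-- The number of neighbours of `v` in the row of `j`. -/
noncomputable def dg (G : SimpleGraph V) (x v j : V) : ℕ :=
  ∑ w ∈ row G x j, if G.Adj v w then 1 else 0

/-- The number of vertices of the row of `i` other than `v` and not adjacent to `v`. -/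
noncomputable def nn (G : SimpleGraph V) (x v i : V) : ℕ :=
  ∑ w ∈ row G x i, if w ≠ v ∧ ¬ G.Adj v w then 1 else 0

lemma sum_dg (h : Cfg G x m) {i v : V} (hi : G.Adj x i) (hv : v ∈ row G x i) :
    ∑ j ∈ nb G x, dg G x v j = m := by
  have h1 : ∑ w, (if G.Adj v w then 1 else 0) = m + 1 := by
    rw [← card_filter]
    exact h.reg v
  rw [sum_split h] at h1
  have h2 : ¬ G.Adj v x := fun h3 => (uniq h hi hv).1 h3.symm
  rw [if_neg h2] at h1
  have h3 : ∑ j ∈ nb G x, (if G.Adj v j then 1 else 0) = 1 := by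
    rw [sum_eq_single i]
    · rw [if_pos (mem_row.1 hv).2.symm]
    · intro j hj hji
      rw [if_neg]
      intro h4
      exact hji ((uniq h hi hv).2 j (mem_nb.1 hj) (mem_row.2 ⟨(mem_row.1 hv).1, h4.symm⟩))
    · intro h4
      exact absurd (mem_nb.2 hi) h4
  rw [h3] at h1
  unfold dg
  omega

lemma dg_add_nn (h : Cfg G x m) {i v : V} (hi : G.Adj x i) (hv : v ∈ row G x i) :
    dg G x v i + nn G x v i + 1 = m := by
  have h1 : ∑ w ∈ row G x i, ((if G.Adj v w then 1 else 0) +
      (if w ≠ v ∧ ¬ G.Adj v w then 1 else 0) + if w = v then 1 else 0) = m := by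
    rw [← card_row h hi, card_eq_sum_ones]
    refine sum_congr rfl fun w _ => ?_
    by_cases h2 : w = v
    · subst h2
      simp
    · by_cases h3 : G.Adj v w
      · simp [h2, h3]
      · simp [h2, h3]
  rw [sum_add_distrib, sum_add_distrib, sum_ite_eq' (row G x i) v, if_pos hv] at h1
  exact h1

lemma sum_dg_erase (h : Cfg G x m) {i v : V} (hi : G.Adj x i) (hv : v ∈ row G x i) :
    ∑ j ∈ (nb G x).erase i, dg G x v j = nn G x v i + 1 := by
  have h1 := sum_dg h hi hv
  rw [← add_sum_erase _ _ (mem_nb.2 hi)] at h1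
  have h2 := dg_add_nn h hi hv
  omega

/-- The number of edges between the rows of `i` and `j`. -/
noncomputable def ell (G : SimpleGraph V) (x i j : V) : ℕ := ∑ v ∈ row G x i, dg G x v j

lemma ell_comm (i j : V) : ell G x i j = ell G x j i := by
  unfold ell dg
  rw [sum_comm]
  refine sum_congr rfl fun v _ => sum_congr rfl fun w _ => ?_
  exact if_congr (G.adj_comm _ _) rfl rfl

/-- The number of ordered pairs of different non-adjacent vertices in the row of `i`. -/
noncomputable def rho (G : SimpleGraph V) (x i : V) : ℕ := ∑ v ∈ row G x i, nn G x v i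

lemma sum_ell (h : Cfg G x m) {i : V} (hi : G.Adj x i) :
    ∑ j ∈ (nb G x).erase i, ell G x i j = rho G x i + m := by
  unfold ell rho
  rw [sum_comm, sum_congr rfl fun v hv => sum_dg_erase h hi hv, sum_add_distrib, sum_const,
    card_row h hi, smul_eq_mul, mul_one]

/-- The number of pairs at distance at most two in the product of the rows of `i` and `j`. -/
noncomputable def nr (G : SimpleGraph V) (x i j : V) : ℕ :=
  ∑ p ∈ row G x i, ∑ q ∈ row G x j, if G.dist p q ≤ 2 then 1 else 0

lemma dist_le_two {u v w : V} (h1 : G.Adj u v) (h2 : G.Adj v w) : G.dist u w ≤ 2 := by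
  have h3 := SimpleGraph.dist_le (SimpleGraph.Walk.cons h1 (SimpleGraph.Walk.cons h2 .nil))
  simpa using h3

/-- A symmetric sum. -/
lemma sym_sum {S : Finset V} (R : V → V → ℕ) (hR : ∀ a b, R a b = R b a) (g : V → ℕ)
    (hg : ∀ a ∈ S, g a ≤ 1) :
    ∑ a ∈ S, ∑ b ∈ S, R b a * g b * (2 - g a) ≤ ∑ a ∈ S, ∑ b ∈ S, R b a := by
  have h1 : ∑ a ∈ S, ∑ b ∈ S, R b a * g b * (2 - g a) =
      ∑ a ∈ S, ∑ b ∈ S, R b a * g a * (2 - g b) := by
    rw [sum_comm]
    refine sum_congr rfl fun a _ => sum_congr rfl fun b _ => ?_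
    rw [hR a b]
  have h2 : ∑ a ∈ S, ∑ b ∈ S, R b a * g b * (2 - g a) +
      ∑ a ∈ S, ∑ b ∈ S, R b a * g a * (2 - g b) ≤ ∑ a ∈ S, ∑ b ∈ S, (R b a + R b a) := by
    rw [← sum_add_distrib]
    refine sum_le_sum fun a ha => ?_
    rw [← sum_add_distrib]
    refine sum_le_sum fun b hb => ?_
    have h3 := hg a ha
    have h4 := hg b hb
    have h5 : g a = 0 ∨ g a = 1 := by omega
    have h6 : g b = 0 ∨ g b = 1 := by omega
    rcases h5 with h5 | h5 <;> rcases h6 with h6 | h6 <;> rw [h5, h6] <;> omega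
  rw [← h1] at h2
  simp_rw [sum_add_distrib] at h2
  omega

/-- The inequality for a pair of rows joined by an edge. -/
lemma pair_rows (h : Cfg G x m) {i j : V} (hi : G.Adj x i) (hj : G.Adj x j)
    (h1 : ∀ p ∈ row G x i, dg G x p j ≤ 1) (h2 : ∀ q ∈ row G x j, dg G x q i ≤ 1)
    (h0 : 1 ≤ ell G x i j) :
    2 * m * ell G x i j + 2 * m ≤
      2 * nr G x i j + rho G x i + rho G x j + 2 * ell G x i j := by
  set S := row G x i with hS
  set S' := row G x j with hS'
  set R : V → V → ℕ := fun a b => if b ≠ a ∧ ¬ G.Adj a b then 1 else 0 with hRdef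
  have hR : ∀ a b, R a b = R b a := by
    intro a b
    simp only [hRdef]
    exact if_congr (by rw [ne_comm, G.adj_comm]) rfl rfl
  set a : V → V → ℕ := fun p q => if G.Adj p q then 1 else 0 with hadef
  have key : ∀ p ∈ S, ∀ q ∈ S', 2 ≤ 2 * (if G.dist p q ≤ 2 then 1 else 0) +
      2 * ((1 - dg G x p j) * (1 - dg G x q i)) +
      (∑ q' ∈ S', a p q' * R q' q) * (2 - dg G x q i) +
      (∑ p' ∈ S, a p' q * R p' p) * (2 - dg G x p j) := by
    intro p hp q hq
    by_cases hd : G.dist p q ≤ 2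
    · rw [if_pos hd]
      omega
    rw [if_neg hd]
    have e1 := h1 p hp
    have e2 := h2 q hq
    have e3 : dg G x p j = 1 → 1 ≤ ∑ q' ∈ S', a p q' * R q' q := by
      intro h3
      have h4 : ∃ q' ∈ S', G.Adj p q' := by
        by_contra h5
        push Not at h5
        have : dg G x p j = 0 := sum_eq_zero fun q' hq' => if_neg (h5 q' hq')
        omega
      obtain ⟨q', hq', h5⟩ := h4
      have h6 : a p q' * R q' q = 1 := by
        simp only [hadef, hRdef]
        rw [if_pos h5, if_pos]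
        refine ⟨?_, fun h7 => hd (dist_le_two h5 h7)⟩
        rintro rfl
        apply hd
        rw [SimpleGraph.dist_eq_one_iff_adj.2 h5]
        omega
      rw [← h6]
      exact single_le_sum (f := fun q' => a p q' * R q' q) (fun _ _ => Nat.zero_le _) hq'
    have e4 : dg G x q i = 1 → 1 ≤ ∑ p' ∈ S, a p' q * R p' p := by
      intro h3
      have h4 : ∃ p' ∈ S, G.Adj p' q := by
        by_contra h5
        push Not at h5
        have : dg G x q i = 0 := sum_eq_zero fun p' hp' => if_neg fun h6 => h5 p' hp' h6.symm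
        omega
      obtain ⟨p', hp', h5⟩ := h4
      have h6 : a p' q * R p' p = 1 := by
        simp only [hadef, hRdef]
        rw [if_pos h5, if_pos]
        refine ⟨?_, fun h7 => hd (dist_le_two h7.symm h5)⟩
        rintro rfl
        apply hd
        rw [SimpleGraph.dist_eq_one_iff_adj.2 h5]
        omega
      rw [← h6]
      exact single_le_sum (f := fun p' => a p' q * R p' p) (fun _ _ => Nat.zero_le _) hp'
    have e5 : dg G x p j = 0 ∨ dg G x p j = 1 := by omega
    have e6 : dg G x q i = 0 ∨ dg G x q i = 1 := by omega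
    rcases e5 with e5 | e5 <;> rcases e6 with e6 | e6
    · rw [e5, e6]
      omega
    · have := e4 e6
      rw [e5, e6]
      omega
    · have := e3 e5
      rw [e5, e6]
      omega
    · have := e4 e6
      have := e3 e5
      rw [e5, e6]
      omega
  have c1 : S.card = m := card_row h hi
  have c2 : S'.card = m := card_row h hj
  have s1 : m * m * 2 ≤ 2 * nr G x i j +
      2 * (∑ p ∈ S, ∑ q ∈ S', (1 - dg G x p j) * (1 - dg G x q i)) +
      ∑ p ∈ S, ∑ q ∈ S', (∑ q' ∈ S', a p q' * R q' q) * (2 - dg G x q i) +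
      ∑ p ∈ S, ∑ q ∈ S', (∑ p' ∈ S, a p' q * R p' p) * (2 - dg G x p j) := by
    calc m * m * 2 = ∑ p ∈ S, ∑ q ∈ S', 2 := by
          rw [sum_const, sum_const, c1, c2, smul_eq_mul, smul_eq_mul, mul_assoc]
      _ ≤ ∑ p ∈ S, ∑ q ∈ S', (2 * (if G.dist p q ≤ 2 then 1 else 0) +
            2 * ((1 - dg G x p j) * (1 - dg G x q i)) +
            (∑ q' ∈ S', a p q' * R q' q) * (2 - dg G x q i) +
            (∑ p' ∈ S, a p' q * R p' p) * (2 - dg G x p j)) :=
          sum_le_sum fun p hp => sum_le_sum fun q hq => key p hp q hq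
      _ = _ := by
          simp only [sum_add_distrib]
          unfold nr
          simp only [mul_sum]
          rfl
  have t1 : ∑ p ∈ S, ∑ q ∈ S', (∑ q' ∈ S', a p q' * R q' q) * (2 - dg G x q i) ≤
      rho G x j := by
    have f1 : ∑ p ∈ S, ∑ q ∈ S', (∑ q' ∈ S', a p q' * R q' q) * (2 - dg G x q i) =
        ∑ q ∈ S', ∑ q' ∈ S', R q' q * dg G x q' i * (2 - dg G x q i) := by
      rw [sum_comm]
      refine sum_congr rfl fun q _ => ?_
      rw [← sum_mul, ← sum_mul]
      congr 1
      rw [sum_comm]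
      refine sum_congr rfl fun q' _ => ?_
      rw [← sum_mul, mul_comm]
      congr 1
      unfold dg
      refine sum_congr rfl fun p _ => ?_
      exact if_congr (G.adj_comm _ _) rfl rfl
    rw [f1]
    refine (sym_sum R hR (fun q => dg G x q i) h2).trans (le_of_eq ?_)
    unfold rho nn
    refine sum_congr rfl fun q _ => sum_congr rfl fun q' _ => ?_
    rw [hR q' q]
  have t2 : ∑ p ∈ S, ∑ q ∈ S', (∑ p' ∈ S, a p' q * R p' p) * (2 - dg G x p j) ≤
      rho G x i := by
    have f1 : ∑ p ∈ S, ∑ q ∈ S', (∑ p' ∈ S, a p' q * R p' p) * (2 - dg G x p j) =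
        ∑ p ∈ S, ∑ p' ∈ S, R p' p * dg G x p' j * (2 - dg G x p j) := by
      refine sum_congr rfl fun p _ => ?_
      rw [← sum_mul, ← sum_mul]
      congr 1
      rw [sum_comm]
      refine sum_congr rfl fun p' _ => ?_
      rw [← sum_mul, mul_comm]
      rfl
    rw [f1]
    refine (sym_sum R hR (fun p => dg G x p j) h1).trans (le_of_eq ?_)
    unfold rho nn
    refine sum_congr rfl fun q _ => sum_congr rfl fun q' _ => ?_
    rw [hR q' q]
  have t3 : ∑ p ∈ S, ∑ q ∈ S', (1 - dg G x p j) * (1 - dg G x q i) =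
      (∑ p ∈ S, (1 - dg G x p j)) * ∑ q ∈ S', (1 - dg G x q i) := by
    rw [sum_mul_sum]
  have k1 : ∑ p ∈ S, (1 - dg G x p j) + ell G x i j = m := by
    unfold ell
    rw [← sum_add_distrib, ← c1, card_eq_sum_ones]
    refine sum_congr rfl fun p hp => ?_
    have := h1 p hp
    omega
  have k2 : ∑ q ∈ S', (1 - dg G x q i) + ell G x i j = m := by
    rw [ell_comm]
    unfold ell
    rw [← sum_add_distrib, ← c2, card_eq_sum_ones]
    refine sum_congr rfl fun p hp => ?_
    have := h2 p hp
    omega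
  have s2 : m * m * 2 ≤ 2 * nr G x i j + 2 * ((∑ p ∈ S, (1 - dg G x p j)) *
      ∑ q ∈ S', (1 - dg G x q i)) + rho G x j + rho G x i := by
    rw [t3] at s1
    omega
  have k3 : ∑ q ∈ S', (1 - dg G x q i) = ∑ p ∈ S, (1 - dg G x p j) := by omega
  rw [k3] at s2
  generalize ∑ p ∈ S, (1 - dg G x p j) = k at *
  generalize ell G x i j = l at *
  rw [← k1] at s2 ⊢
  nlinarith [Nat.mul_le_mul_left k h0]

end Pool.Agent.MP_aeedc9_co
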